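import Pool.Agent.helper39.TK.DefsP

/-! TK-7 (MP_290026_an): the action on `(H ⧸ P) × E`. -/

set_option autoImplicit false

noncomputable section

namespace TauE

open SofE hiding Al tt sh XX XX_smul MOK near ent_le lower_gen lower2 lower3

/-- the action on `(H ⧸ P) × E` -/
def actP {Γ Δ H E : Type} [Group H] (P : Subgroup H) (ψ : Γ → H) (ρ : Δ → Equiv.Perm E) (g : Γ × Δ) : Equiv.Perm ((H ⧸ P) × E) :=
  Equiv.prodCongr (MulAction.toPerm (ψ g.1)) (ρ g.2)

theorem actP_apply {Γ Δ H E : Type} [Group H] (P : Subgroup H) (ψ : Γ → H) (ρ : Δ → Equiv.Perm E) (g : Γ × Δ) (v : (H ⧸ P) × E) :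
    actP P ψ ρ g v = (ψ g.1 • v.1, ρ g.2 v.2) := rfl

theorem pull {H E : Type} [Group H] [Fintype H] [Fintype E] (P : Subgroup H) [Fintype P] [Fintype (H ⧸ P)] (R : (H ⧸ P) × E → Prop) :
    cnt (fun v : H × E => R (QuotientGroup.mk v.1, v.2)) = cnt R * Fintype.card P := by
  let e0 : H ≃ (H ⧸ P) × P := Subgroup.groupEquivQuotientProdSubgroup
  let e1 : H × E ≃ ((H ⧸ P) × E) × P :=
    (Equiv.prodCongr e0 (Equiv.refl E)).trans
      ⟨fun w => ((w.1.1, w.2), w.1.2), fun w => ((w.1.1, w.2), w.1.2), fun _ => rfl, fun _ => rfl⟩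
  have h1 := cnt_equiv e1 (fun w => R w.1)
  rw [cnt_fst] at h1
  rw [← h1]
  exact cnt_congr fun v => Iff.rfl

theorem pull_card {H E : Type} [Group H] [Fintype H] [Fintype E] (P : Subgroup H) [Fintype P] [Fintype (H ⧸ P)] :
    Fintype.card (H × E) = Fintype.card ((H ⧸ P) × E) * Fintype.card P := by
  have h := pull (E := E) P (fun _ => True)
  rwa [cnt_true, cnt_true] at h

theorem act_appr {Γ Δ H E : Type} [Group Γ] [Group Δ] [Group H] [Fintype H] [Fintype E] (P : Subgroup H) [Fintype P] [Fintype (H ⧸ P)]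
    {ψ : Γ → H} {ρ : Δ → Equiv.Perm E} {F : Finset (Γ × Δ)} {F0 : Finset Γ} {F1 : Finset Δ} {ε : ℝ} (hε : 0 ≤ ε)
    (hF : ∀ g ∈ F, g.1 ∈ F0 ∧ g.2 ∈ F1) (hψ : ∀ s ∈ F0, ∀ t ∈ F0, ψ (s * t) = ψ s * ψ t)
    (hfree : ∀ s ∈ F0, s ≠ 1 → (cnt (fun a : H => a⁻¹ * ψ s * a ∈ P) : ℝ) ≤ ε * Fintype.card H)
    (hD : Appr F1 ε ρ) : Appr F ε (actP P ψ ρ) := by
  haveI := hD.ne
  have hcard : (Fintype.card ((H ⧸ P) × E) : ℝ) = Fintype.card (H ⧸ P) * Fintype.card E := by
    rw [Fintype.card_prod]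
    push_cast
    ring
  have hP : (0 : ℝ) < Fintype.card P := by exact_mod_cast Fintype.card_pos
  have hsnd : ∀ (R : E → Prop), (cnt R : ℝ) ≤ ε * Fintype.card E →
      (cnt (fun v : (H ⧸ P) × E => R v.2) : ℝ) ≤ ε * Fintype.card ((H ⧸ P) × E) := by
    intro R hR
    rw [cnt_snd (α := H ⧸ P) R, hcard]
    push_cast
    have h2 : (0 : ℝ) ≤ Fintype.card (H ⧸ P) := Nat.cast_nonneg _
    nlinarith [mul_le_mul_of_nonneg_left hR h2]
  refine ⟨inferInstance, ?_, ?_⟩
  · rintro ⟨s, s'⟩ hs ⟨t, t'⟩ ht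
    refine le_trans ?_ (hsnd (fun e => ρ (s' * t') e ≠ ρ s' (ρ t' e)) (hD.mul s' (hF _ hs).2 t' (hF _ ht).2))
    norm_cast
    refine cnt_mono ?_
    rintro ⟨x, e⟩ hv hcon
    apply hv
    rw [actP_apply, actP_apply, actP_apply]
    refine Prod.ext ?_ hcon
    show ψ (s * t) • x = ψ s • ψ t • x
    rw [hψ s (hF _ hs).1 t (hF _ ht).1, mul_smul]
  · rintro ⟨s, s'⟩ hs hne
    by_cases hs' : s' = 1
    · have hs1 : s ≠ 1 := by
        intro h
        apply hne
        rw [h, hs']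
        rfl
      have h1 := hfree s (hF _ hs).1 hs1
      have h2 : cnt (fun a : H => a⁻¹ * ψ s * a ∈ P) = cnt (fun x : H ⧸ P => ψ s • x = x) * Fintype.card P := by
        have h3 := pull (E := Unit) P (fun v => ψ s • v.1 = v.1)
        rw [cnt_fst (β := Unit) (fun x : H ⧸ P => ψ s • x = x)] at h3
        have h4 : cnt (fun v : H × Unit => ψ s • (QuotientGroup.mk v.1 : H ⧸ P) = QuotientGroup.mk v.1) =
            cnt (fun a : H => ψ s • (QuotientGroup.mk a : H ⧸ P) = QuotientGroup.mk a) := by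
          have := cnt_fst (β := Unit) (fun a : H => ψ s • (QuotientGroup.mk a : H ⧸ P) = QuotientGroup.mk a)
          rw [this]
          simp
        simp only [Fintype.card_unit, mul_one] at h3
        rw [← h3, h4]
        refine cnt_congr fun a => ?_
        rw [MulAction.Quotient.smul_mk, smul_eq_mul, eq_comm, QuotientGroup.eq, mul_assoc]
      rw [h2] at h1
      push_cast at h1
      have hH : (Fintype.card H : ℝ) = Fintype.card (H ⧸ P) * Fintype.card P := by
        have := pull_card (E := Unit) P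
        rw [Fintype.card_prod, Fintype.card_prod] at this
        simp only [Fintype.card_unit, mul_one] at this
        exact_mod_cast this
      rw [hH, ← mul_assoc] at h1
      have h5 : (cnt (fun x : H ⧸ P => ψ s • x = x) : ℝ) ≤ ε * Fintype.card (H ⧸ P) := le_of_mul_le_mul_right h1 hP
      have h6 : cnt (fun v : (H ⧸ P) × E => actP P ψ ρ (s, s') v = v) ≤ cnt (fun v : (H ⧸ P) × E => ψ s • v.1 = v.1) := by
        refine cnt_mono ?_
        rintro ⟨x, e⟩ hv
        exact congrArg Prod.fst hv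
      rw [cnt_fst (β := E) (fun x : H ⧸ P => ψ s • x = x)] at h6
      have h7 : (cnt (fun v : (H ⧸ P) × E => actP P ψ ρ (s, s') v = v) : ℝ) ≤ cnt (fun x : H ⧸ P => ψ s • x = x) * Fintype.card E := by
        exact_mod_cast h6
      refine h7.trans ?_
      rw [hcard]
      have h8 : (0 : ℝ) ≤ Fintype.card E := Nat.cast_nonneg _
      nlinarith [mul_le_mul_of_nonneg_right h5 h8]
    · refine le_trans ?_ (hsnd (fun e => ρ s' e = e) (hD.free s' (hF _ hs).2 hs'))
      norm_cast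
      refine cnt_mono ?_
      rintro ⟨x, e⟩ hv
      exact congrArg Prod.snd hv

/-- transport of the condition on the types -/
theorem near_transport {Q : Type} [Group Q] {δ : ℝ} {V W : Type} [Fintype V] [Fintype W] (e : V ≃ W) (A : Equiv.Perm V) (z : Q)
    (c : W → Option Q) : near δ (e.permCongr A) z c ↔ near δ A z (fun v => c (e v)) := by
  unfold near
  rw [← Fintype.card_congr e, ← cnt_equiv e]
  have : cnt (fun a => c ((e.permCongr A) (e a)) ≠ sh z (c (e a))) = cnt (fun a => c (e (A a)) ≠ sh z (c (e a))) :=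
    cnt_congr fun v => by simp [Equiv.permCongr_apply]
  rw [this]

end TauE
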