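import Pool.Agent.helper39.TK.SpaceP
import Pool.Agent.helper39.TK.UpperP
import Pool.Agent.helper39.TK.LowerP

/-! TK-5 (MP_290026_an): the criterion. Adapt `crit` and `count_types` of helper74/WR/Main.lean.
First approximation: as there (`lower2`, `ent_le`, `count_types`). Second one: property for `seq_of_fin`: `∃ c0, ...` and for all `i ≤ j` the bound of the number of
`τ` with `θ = 1/(i+1)`. `log r ≤ ent` from `lower3`; `ent ≤ log r` from `ent_le` with `T` and `del (1/(i+1))`, `1/(i+1) ≤ η`: a configuration `c` is determined by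
`τ = tt ∘ c` and by the remaining coordinate `c v ↦ (Sum.elim (Fin t → Fin r) Prod.snd)`, as `t ≤ r`; so their number is `≤ exp (θ k) * r ^ k`. -/

set_option autoImplicit false

open Filter Topology

noncomputable section

namespace TauE

open SofE hiding Al tt sh XX XX_smul MOK near ent_le lower_gen lower2 lower3

/-- The conclusion: two sofic approximations and actions with different entropies. -/
def Concl (G : Type) [Group G] : Prop :=
  ∃ (k : ℕ → ℕ) (π : ∀ n, G → Equiv.Perm (Fin (k n))) (k' : ℕ → ℕ) (π' : ∀ n, G → Equiv.Perm (Fin (k' n))), IsSofic k π ∧ IsSofic k' π' ∧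
    ∀ t r : ℕ, 1 ≤ t → t ≤ r → ∃ (X : Type) (_ : MetricSpace X) (_ : CompactSpace X) (_ : MulAction G X),
      (∀ s : G, Continuous (fun x : X => s • x)) ∧ ent X k π = ((Real.log t : ℝ) : EReal) ∧ ent X k' π' = ((Real.log r : ℝ) : EReal)

/-- Few configurations are rarely of type `some z`. -/
theorem count_types (Q : Type) [Group Q] [Fintype Q] (t r : ℕ) [NeZero t] {η : ℝ} (hη : 0 < η) : ∃ θ : ℝ, 0 < θ ∧ ∀ k : ℕ,
    (cnt (fun c : Fin k → Al Q t r => (cnt (fun v => tt (c v) ≠ none) : ℝ) ≤ θ * k) : ℝ) ≤ Real.exp ((Real.log t + η) * k) := by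
  obtain ⟨θ, hθ, -, hham⟩ := ham (Fintype.card (Option (Q × Fin r))) hη
  refine ⟨θ, hθ, fun k => ?_⟩
  have ht : 0 < t := NeZero.pos t
  let b : (Fin k → Al Q t r) → Fin k → Fin t := fun c v => Sum.elim id (fun _ => ⟨0, ht⟩) (c v)
  let f : (Fin k → Al Q t r) → Fin k → Option (Q × Fin r) := fun c v => Sum.elim (fun _ => none) some (c v)
  have hf : ∀ c v, tt (c v) ≠ none ↔ f c v ≠ none := by
    intro c v
    show tt (c v) ≠ none ↔ Sum.elim (fun _ => none) some (c v) ≠ none
    rcases c v with x | x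
    · exact ⟨fun h => absurd rfl h, fun h => absurd rfl h⟩
    · exact ⟨fun _ => Option.some_ne_none _, fun _ => Option.some_ne_none _⟩
  have h1 : cnt (fun c : Fin k → Al Q t r => (cnt (fun v => tt (c v) ≠ none) : ℝ) ≤ θ * k) ≤
      cnt (fun x : (Fin k → Fin t) × (Fin k → Option (Q × Fin r)) => True ∧ (cnt (fun v => x.2 v ≠ none) : ℝ) ≤ θ * Fintype.card (Fin k)) := by
    refine cnt_le_of_inj (fun c => (b c, f c)) ?_ ?_
    · intro c c' _ _ h
      have e1 : b c = b c' := congrArg Prod.fst h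
      have e2 : f c = f c' := congrArg Prod.snd h
      funext v
      have e1v : Sum.elim id (fun _ => ⟨0, ht⟩) (c v) = Sum.elim id (fun _ => ⟨0, ht⟩) (c' v) := congrFun e1 v
      have e2v : Sum.elim (fun _ => none) some (c v) = (Sum.elim (fun _ => none) some (c' v) : Option (Q × Fin r)) := congrFun e2 v
      rcases hc : c v with x | x <;> rcases hc' : c' v with y | y <;> rw [hc, hc'] at e1v e2v
      · exact congrArg Sum.inl e1v
      · exact absurd e2v.symm (Option.some_ne_none _)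
      · exact absurd e2v (Option.some_ne_none _)
      · exact congrArg Sum.inr (Option.some_injective _ e2v)
    · intro c hc
      refine ⟨trivial, ?_⟩
      rw [Fintype.card_fin, ← cnt_congr (hf c)]
      exact hc
  rw [cnt_prod (fun _ : Fin k → Fin t => True) (fun x : Fin k → Option (Q × Fin r) => (cnt (fun v => x v ≠ none) : ℝ) ≤ θ * Fintype.card (Fin k)),
    cnt_true, Fintype.card_fun, Fintype.card_fin, Fintype.card_fin] at h1
  have h2 := hham (Fin k) (Option (Q × Fin r)) none le_rfl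
  rw [Fintype.card_fin] at h2
  have h3 : (cnt (fun c : Fin k → Al Q t r => (cnt (fun v => tt (c v) ≠ none) : ℝ) ≤ θ * k) : ℝ) ≤
      (t : ℝ) ^ k * (cnt (fun x : Fin k → Option (Q × Fin r) => (cnt (fun v => x v ≠ none) : ℝ) ≤ θ * k) : ℝ) := by
    exact_mod_cast h1
  refine h3.trans ?_
  have ht' : (0 : ℝ) < t := by exact_mod_cast ht
  have h4 : (t : ℝ) ^ k = Real.exp (Real.log t * k) := by
    rw [← Real.rpow_natCast, Real.rpow_def_of_pos ht']
  rw [h4, add_mul, Real.exp_add]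
  exact mul_le_mul_of_nonneg_left h2 (Real.exp_pos _).le

/-- A configuration is determined by its types and by one more symbol of `Fin r` at every point. -/
theorem count_second {Q : Type} [Group Q] [Fintype Q] (t r : ℕ) (htr : t ≤ r) (k : ℕ) (P : (Fin k → Option Q) → Prop) :
    cnt (fun c : Fin k → Al Q t r => P (fun v => tt (c v))) ≤ cnt P * r ^ k := by
  have h1 : cnt (fun c : Fin k → Al Q t r => P (fun v => tt (c v))) ≤
      cnt (fun x : (Fin k → Option Q) × (Fin k → Fin r) => P x.1) := by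
    refine cnt_le_of_inj (fun c => ((fun v => tt (c v)), (fun v => Sum.elim (Fin.castLE htr) Prod.snd (c v)))) ?_ ?_
    · intro c c' _ _ h
      have e1 : (fun v => tt (c v)) = fun v => tt (c' v) := congrArg Prod.fst h
      have e2 : (fun v => Sum.elim (Fin.castLE htr) Prod.snd (c v)) = fun v => Sum.elim (Fin.castLE htr) Prod.snd (c' v) := congrArg Prod.snd h
      funext v
      have e1v : tt (c v) = tt (c' v) := congrFun e1 v
      have e2v : (Sum.elim (Fin.castLE htr) Prod.snd (c v) : Fin r) = Sum.elim (Fin.castLE htr) Prod.snd (c' v) := congrFun e2 v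
      rcases hc : c v with x | x <;> rcases hc' : c' v with y | y <;> rw [hc, hc'] at e1v e2v
      · exact congrArg Sum.inl (Fin.castLE_injective htr e2v)
      · exact absurd e1v.symm (Option.some_ne_none _)
      · exact absurd e1v (Option.some_ne_none _)
      · exact congrArg Sum.inr (Prod.ext (Option.some_injective _ e1v) e2v)
    · intro c hc
      exact hc
  refine h1.trans (le_of_eq ?_)
  rw [cnt_fst P, Fintype.card_fun, Fintype.card_fin, Fintype.card_fin]

/-- The criterion. -/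
theorem crit {G : Type} [Group G] [Countable G] {Q : Type} [Group Q] [Fintype Q] (p : G →* Q) (T : Finset G) (del : ℝ → ℝ)
    (hdel : ∀ θ, 0 < θ → 0 < del θ)
    (h0 : ∀ (F : Finset G) (ε : ℝ), 0 < ε → ∀ Θ : Finset ℝ, (∀ θ ∈ Θ, 0 < θ) →
      ∃ (k : ℕ) (π : G → Equiv.Perm (Fin k)), Appr F ε π ∧ ∀ θ ∈ Θ, ∀ τ : Fin k → Option Q,
        (∀ g ∈ T, near (del θ) (π g) (p g)⁻¹ τ) → (cnt (fun v => τ v ≠ none) : ℝ) ≤ θ * k)
    (h1 : ∀ (F : Finset G) (ε : ℝ), 0 < ε → ∀ Θ : Finset ℝ, (∀ θ ∈ Θ, 0 < θ) →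
      ∃ (k : ℕ) (π : G → Equiv.Perm (Fin k)), Appr F ε π ∧
        (∃ c0 : Fin k → Q, ∀ g ∈ F, (cnt (fun v => c0 (π g v) ≠ c0 v * (p g)⁻¹) : ℝ) ≤ ε * k) ∧
        ∀ θ ∈ Θ, (cnt (fun τ : Fin k → Option Q => ∀ g ∈ T, near (del θ) (π g) (p g)⁻¹ τ) : ℝ) ≤ Real.exp (θ * k)) :
    Concl G := by
  have hΘ : ∀ j : ℕ, ∀ η ∈ (Finset.range (j + 1)).image (fun i : ℕ => 1 / ((i : ℝ) + 1)), 0 < η := by
    intro j η hη
    rw [Finset.mem_image] at hη
    obtain ⟨i, -, rfl⟩ := hη
    positivity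
  -- the first approximation
  obtain ⟨k, π, F, hF, hS, hQ⟩ := seq_of_fin (Γ := G)
    (fun _ _ j k π => ∀ i : ℕ, i ≤ j → ∀ τ : Fin k → Option Q,
      (∀ g ∈ T, near (del (1 / ((i : ℝ) + 1))) (π g) (p g)⁻¹ τ) → (cnt (fun v => τ v ≠ none) : ℝ) ≤ 1 / ((i : ℝ) + 1) * k) (by
    intro F ε j hε
    obtain ⟨k, π, h2, h3⟩ := h0 F ε hε _ (hΘ j)
    exact ⟨k, π, h2, fun i hi => h3 _ (Finset.mem_image_of_mem _ (Finset.mem_range.2 (by omega)))⟩)
  -- the second approximation
  obtain ⟨k', π', F', hF', hS', hQ'⟩ := seq_of_fin (Γ := G)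
    (fun F ε j k π => (∃ c0 : Fin k → Q, ∀ g ∈ F, (cnt (fun v => c0 (π g v) ≠ c0 v * (p g)⁻¹) : ℝ) ≤ ε * k) ∧
      ∀ i : ℕ, i ≤ j → (cnt (fun τ : Fin k → Option Q => ∀ g ∈ T, near (del (1 / ((i : ℝ) + 1))) (π g) (p g)⁻¹ τ) : ℝ) ≤
        Real.exp (1 / ((i : ℝ) + 1) * k)) (by
    intro F ε j hε
    obtain ⟨k, π, h2, h3, h4⟩ := h1 F ε hε _ (hΘ j)
    exact ⟨k, π, h2, h3, fun i hi => h4 _ (Finset.mem_image_of_mem _ (Finset.mem_range.2 (by omega)))⟩)
  choose c0 hc0 using fun n => (hQ' n).1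
  refine ⟨k, π, k', π', hS, hS', fun t r ht hr => ?_⟩
  have : NeZero t := ⟨by omega⟩
  have : NeZero r := ⟨by omega⟩
  obtain ⟨mm, hM⟩ := exists_MOK t r p
  have hlog : 0 ≤ Real.log t := Real.log_nonneg (by exact_mod_cast ht)
  have hr1 : (1 : ℝ) ≤ r := by exact_mod_cast ht.trans hr
  refine ⟨XX t r p, mm, hM.comp, inferInstance, hM.cont, ?_, ?_⟩
  · refine le_antisymm ?_ (lower2 hM hS)
    refine ent_le hM hS (Real.log t) hlog ?_
    intro η hη
    obtain ⟨θ, hθ, hcount⟩ := count_types Q t r hη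
    obtain ⟨i, hi⟩ := exists_nat_one_div_lt hθ
    refine ⟨T, del (1 / ((i:ℝ) + 1)), hdel _ (by positivity), ?_⟩
    filter_upwards [eventually_ge_atTop i] with n hn
    refine le_trans ?_ (hcount (k n))
    have h2 : cnt (fun c : Fin (k n) → Al Q t r => ∀ s ∈ T, near (del (1 / ((i:ℝ) + 1))) (π n s) (p s)⁻¹ (fun v => tt (c v))) ≤
        cnt (fun c : Fin (k n) → Al Q t r => (cnt (fun v => tt (c v) ≠ none) : ℝ) ≤ θ * k n) := by
      refine cnt_mono fun c hc => ?_
      have h3 := hQ n i hn (fun v => tt (c v)) hc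
      exact h3.trans (mul_le_mul_of_nonneg_right hi.le (Nat.cast_nonneg _))
    exact_mod_cast h2
  · refine le_antisymm ?_ (lower3 hM hS' c0 ?_)
    · refine ent_le hM hS' (Real.log r) (Real.log_nonneg hr1) ?_
      intro η hη
      obtain ⟨i, hi⟩ := exists_nat_one_div_lt hη
      refine ⟨T, del (1 / ((i:ℝ) + 1)), hdel _ (by positivity), ?_⟩
      filter_upwards [eventually_ge_atTop i] with n hn
      have h2 := count_second t r hr (k' n)
        (fun τ : Fin (k' n) → Option Q => ∀ g ∈ T, near (del (1 / ((i : ℝ) + 1))) (π' n g) (p g)⁻¹ τ)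
      have h3 := (hQ' n).2 i hn
      have h4 : (cnt (fun c : Fin (k' n) → Al Q t r => ∀ s ∈ T, near (del (1 / ((i:ℝ) + 1))) (π' n s) (p s)⁻¹ (fun v => tt (c v))) : ℝ) ≤
          (cnt (fun τ : Fin (k' n) → Option Q => ∀ g ∈ T, near (del (1 / ((i : ℝ) + 1))) (π' n g) (p g)⁻¹ τ) : ℝ) * (r : ℝ) ^ (k' n) := by
        exact_mod_cast h2
      refine h4.trans ?_
      have h5 : (r : ℝ) ^ (k' n) = Real.exp (Real.log r * k' n) := by
        rw [← Real.rpow_natCast, Real.rpow_def_of_pos (by linarith)]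
      rw [h5]
      refine (mul_le_mul_of_nonneg_right h3 (Real.exp_pos _).le).trans ?_
      rw [← Real.exp_add]
      refine Real.exp_le_exp.2 ?_
      have h6 : 1 / ((i : ℝ) + 1) * (k' n : ℝ) ≤ η * k' n := mul_le_mul_of_nonneg_right hi.le (Nat.cast_nonneg _)
      linarith [add_mul (Real.log r) η (k' n : ℝ)]
    · intro s
      have h1 : ∀ᶠ n in atTop, (cnt (fun v => c0 n (π' n s v) ≠ c0 n v * (p s)⁻¹) : ℝ) / (k' n : ℝ) ≤ 1 / ((n:ℝ) + 1) := by
        filter_upwards [hF' s] with n hn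
        have h2 := hc0 n s hn
        have h3 : (0:ℝ) < k' n := by exact_mod_cast hS'.pos n
        rw [div_le_iff₀ h3]
        exact h2
      refine tendsto_of_tendsto_of_tendsto_of_le_of_le' tendsto_const_nhds tendsto_one_div_add_atTop_nhds_zero_nat
        (Eventually.of_forall fun n => by positivity) h1

end TauE
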