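import Pool.Agent.helper41.SE.Upper
import Pool.Agent.helper41.SE.Lower
import Pool.Agent.helper41.SE.Seq

/-! TK-1 (MP_290026_an, helper39): the subshifts with types in a finite group `Q` (adapted from helper74/WR/DefsQ). -/

set_option autoImplicit false

open Filter Topology

noncomputable section

namespace TauE

open SofE hiding Al tt sh XX XX_smul MOK near

/-- `t` symbols of type `none`, `|Q| * r` symbols of type `some z` -/
abbrev Al (Q : Type) (t r : ℕ) : Type := Fin t ⊕ (Q × Fin r)

/-- type of a symbol -/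
def tt {Q : Type} {t r : ℕ} : Al Q t r → Option Q
  | .inl _ => none
  | .inr a => some a.1

/-- shift of types -/
def sh {Q : Type} [Group Q] (z : Q) (o : Option Q) : Option Q := o.map (fun w => w * z)

section
variable {Γ : Type} [Group Γ] {Q : Type} [Group Q]

/-- the subshift: the type is constantly `none` or changes according to `p` -/
@[ext]
structure XX (t r : ℕ) (p : Γ →* Q) where
  val : Γ → Al Q t r
  prop : ∀ g n, tt (val (g * n)) = sh (p n) (tt (val g))

variable {t r : ℕ}

instance (p : Γ →* Q) : MulAction Γ (XX t r p) where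
  smul s x := ⟨fun g => x.val (s⁻¹ * g), fun g n => by rw [← mul_assoc]; exact x.prop (s⁻¹ * g) n⟩
  one_smul x := XX.ext (funext fun g => by show x.val (1⁻¹ * g) = x.val g; rw [inv_one, one_mul])
  mul_smul s u x := XX.ext (funext fun g => by
    show x.val ((s * u)⁻¹ * g) = x.val (u⁻¹ * (s⁻¹ * g))
    rw [mul_inv_rev, mul_assoc])

theorem XX_smul (p : Γ →* Q) (s : Γ) (x : XX t r p) (g : Γ) : (s • x).val g = x.val (s⁻¹ * g) := rfl

/-- the facts on the metric which are used -/
structure MOK (t r : ℕ) (p : Γ →* Q) [MetricSpace (XX t r p)] : Prop where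
  comp : CompactSpace (XX t r p)
  cont : ∀ s : Γ, Continuous (fun x : XX t r p => s • x)
  near : ∀ ε : ℝ, 0 < ε → ∃ W : Finset Γ, ∀ x y : XX t r p, (∀ g ∈ W, x.val g = y.val g) → dist x y < ε
  sep : ∀ g : Γ, ∃ ε : ℝ, 0 < ε ∧ ∀ x y : XX t r p, x.val g ≠ y.val g → ε ≤ dist x y
  le1 : ∀ x y : XX t r p, dist x y ≤ 1

end

/-- the type `c` satisfies the constraint for the permutation `A` and the shift `z` except at `δ |V|` points -/
def near {Q : Type} [Group Q] (δ : ℝ) {V : Type} [Fintype V] (A : Equiv.Perm V) (z : Q) (c : V → Option Q) : Prop :=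
  (cnt (fun v => c (A v) ≠ sh z (c v)) : ℝ) ≤ δ * Fintype.card V

/-! ### expanders -/

/-- relative expansion: a subset `A` of the finite group `H` which is nearly invariant under the left multiplications by `ψ s`, `s ∈ S`, is near a union of cosets of `K`
(for `K = ⊤`: the left multiplications by `ψ s` form an expander) -/
def Expd {Γ H : Type} [Group H] [Fintype H] (ε : ℝ) (S : Finset Γ) (ψ : Γ → H) (K : Subgroup H) : Prop :=
  ∀ A : H → Prop, ∃ B : H → Prop, (∀ a, ∀ k ∈ K, (B (a * k) ↔ B a)) ∧
    ε * (cnt (fun a => ¬ (A a ↔ B a)) : ℝ) ≤ ∑ s ∈ S, (cnt (fun a => A a ∧ ¬ A (ψ s * a)) : ℝ)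

end TauE
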