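import Pool.Agent.helper39.TK.DefsP
import Pool.Agent.helper41.SE.Ham

/-! TK-6a (MP_290026_an): nearly invariant functions on expanders. -/

set_option autoImplicit false

open Filter Topology

noncomputable section

namespace TauE

open SofE hiding Al tt sh XX XX_smul MOK near ent_le lower_gen lower2 lower3

theorem nearly_inv {Γ H Y : Type} [Group H] [Fintype H] [Fintype Y] {ε : ℝ} (hε : 0 < ε) {S : Finset Γ} {ψ : Γ → H} {K : Subgroup H}
    (h : Expd ε S ψ K) (w : H → Y) :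
    ∃ w' : H → Y, (∀ a, ∀ k ∈ K, w' (a * k) = w' a) ∧
      (cnt (fun a => w a ≠ w' a) : ℝ) ≤ ε⁻¹ * ∑ s ∈ S, (cnt (fun a => w (ψ s * a) ≠ w a) : ℝ) := by
  classical
  choose B hB1 hB2 using fun z : Y => h (fun a => w a = z)
  -- choice of a value
  let ch : (Y → Prop) → Y := fun T => if hT : ∃ z, T z then hT.choose else w 1
  have hch : ∀ T : Y → Prop, (∃ z, T z) → T (ch T) := by
    intro T hT
    have : ch T = hT.choose := dif_pos hT
    rw [this]
    exact hT.choose_spec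
  refine ⟨fun a => ch (fun z => B z a), ?_, ?_⟩
  · intro a k hk
    have : (fun z => B z (a * k)) = (fun z => B z a) := by
      funext z
      exact propext (hB1 z a k hk)
    simp only [this]
  · have h1 : cnt (fun a => w a ≠ ch (fun z => B z a)) ≤ ∑ z : Y, cnt (fun a => ¬ (w a = z ↔ B z a)) := by
      refine le_trans (cnt_mono fun a ha => ?_) (cnt_exists_le' (fun z a => ¬ (w a = z ↔ B z a)))
      by_contra hcon
      push Not at hcon
      apply ha
      have h2 : B (w a) a := (hcon (w a)).1 rfl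
      exact (hcon _).2 (hch (fun z => B z a) ⟨w a, h2⟩)
    have h2 : ∑ z : Y, ε * (cnt (fun a => ¬ (w a = z ↔ B z a)) : ℝ) ≤ ∑ z : Y, ∑ s ∈ S, (cnt (fun a => w a = z ∧ ¬ w (ψ s * a) = z) : ℝ) :=
      Finset.sum_le_sum fun z _ => hB2 z
    have h4 : ∑ z : Y, ∑ s ∈ S, (cnt (fun a => w a = z ∧ ¬ w (ψ s * a) = z) : ℝ) ≤ ∑ s ∈ S, (cnt (fun a => w (ψ s * a) ≠ w a) : ℝ) := by
      rw [Finset.sum_comm]
      refine Finset.sum_le_sum fun s _ => ?_
      have e1 := cnt_comm (fun (z : Y) (a : H) => w a = z ∧ ¬ w (ψ s * a) = z)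
      have e2 : ∀ a : H, cnt (fun z : Y => w a = z ∧ ¬ w (ψ s * a) = z) ≤ if w (ψ s * a) ≠ w a then 1 else 0 := by
        intro a
        split_ifs with hc
        · have : cnt (fun z : Y => w a = z ∧ ¬ w (ψ s * a) = z) ≤ cnt (fun z : Y => w a = z) := cnt_mono fun z hz => hz.1
          refine this.trans ?_
          rw [cnt_eq]
          rw [Finset.card_le_one]
          intro z hz z' hz'
          simp only [Finset.mem_filter, Finset.mem_univ, true_and] at hz hz'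
          rw [← hz, ← hz']
        · rw [Nat.le_zero, cnt_eq_zero]
          rintro z ⟨hz, hz'⟩
          push Not at hc
          exact hz' (by rw [hc]; exact hz)
      have e3 : ∑ a : H, cnt (fun z : Y => w a = z ∧ ¬ w (ψ s * a) = z) ≤ cnt (fun a => w (ψ s * a) ≠ w a) := by
        rw [cnt_sum]
        exact Finset.sum_le_sum fun a _ => e2 a
      rw [← e1] at e3
      exact_mod_cast e3
    have h5 : (cnt (fun a => w a ≠ ch (fun z => B z a)) : ℝ) ≤ ∑ z : Y, (cnt (fun a => ¬ (w a = z ↔ B z a)) : ℝ) := by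
      exact_mod_cast h1
    rw [← Finset.mul_sum] at h2
    rw [inv_mul_eq_div, le_div_iff₀ hε, mul_comm]
    exact (mul_le_mul_of_nonneg_left h5 hε.le).trans (h2.trans h4)

theorem cnt_fib {H E : Type} [Fintype H] [Fintype E] (P : H × E → Prop) : (cnt P : ℝ) = ∑ e : E, (cnt (fun a : H => P (a, e)) : ℝ) := by
  rw [cnt_prod_right]
  push_cast
  rfl

theorem fib_inv {Γ H E Y : Type} [Group H] [Fintype H] [Fintype E] [Fintype Y] {ε : ℝ} (hε : 0 < ε) {S : Finset Γ} {ψ : Γ → H}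
    {K : Subgroup H} (h : Expd ε S ψ K) (w : H × E → Y) :
    ∃ w' : H × E → Y, (∀ a e, ∀ k ∈ K, w' (a * k, e) = w' (a, e)) ∧
      (cnt (fun v => w v ≠ w' v) : ℝ) ≤ ε⁻¹ * ∑ s ∈ S, (cnt (fun v : H × E => w (ψ s * v.1, v.2) ≠ w v) : ℝ) := by
  choose y hy1 hy using fun e : E => nearly_inv hε h (fun a => w (a, e))
  refine ⟨fun v => y v.2 v.1, fun a e k hk => hy1 e a k hk, ?_⟩
  rw [cnt_fib (fun v : H × E => w v ≠ y v.2 v.1)]
  have h1 : ∀ s ∈ S, (cnt (fun v : H × E => w (ψ s * v.1, v.2) ≠ w v) : ℝ) = ∑ e : E, (cnt (fun a : H => w (ψ s * a, e) ≠ w (a, e)) : ℝ) :=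
    fun s _ => cnt_fib _
  rw [Finset.sum_congr rfl h1, Finset.sum_comm, Finset.mul_sum]
  exact Finset.sum_le_sum fun e _ => hy e

theorem sh_one {Q : Type} [Group Q] (o : Option Q) : sh 1 o = o := by
  cases o <;> simp [sh]

theorem sh_sh {Q : Type} [Group Q] (z z' : Q) (o : Option Q) : sh z (sh z' o) = sh (z' * z) o := by
  cases o <;> simp [sh, mul_assoc]

theorem sh_inj {Q : Type} [Group Q] (z : Q) {o o' : Option Q} (h : sh z o = sh z o') : o = o' := by
  have h1 := congrArg (sh z⁻¹) h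
  rwa [sh_sh, sh_sh, mul_inv_cancel, sh_one, sh_one] at h1

/-- the twisted types -/
def tw {H E Q : Type} [Group H] [Group Q] (q : H →* Q) (τ : H × E → Option Q) (v : H × E) : Option Q := sh (q v.1) (τ v)

theorem tw_iff {H E Q : Type} [Group H] [Group Q] (q : H →* Q) (τ : H × E → Option Q) (g : H) (v : H × E) :
    tw q τ (g * v.1, v.2) = tw q τ v ↔ τ (g * v.1, v.2) = sh (q g)⁻¹ (τ v) := by
  unfold tw
  constructor
  · intro h
    apply sh_inj (q (g * v.1))
    rw [h, sh_sh, map_mul, inv_mul_cancel_left]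
  · intro h
    rw [h, sh_sh, map_mul, inv_mul_cancel_left]

theorem hol {Γ H E Q : Type} [Group H] [Fintype H] [Fintype E] [Group Q] [Fintype Q] {ε : ℝ} (hε : 0 < ε) {S : Finset Γ} {ψ : Γ → H}
    {K : Subgroup H} (h : Expd ε S ψ K) (q : H →* Q) {x : H} (hxK : x ∈ K) (hx : q x ≠ 1) (τ : H × E → Option Q)
    (hτ : ∀ a e, τ (a * x, e) = τ (a, e)) :
    (cnt (fun v => τ v ≠ none) : ℝ) ≤
      2 * ε⁻¹ * ∑ s ∈ S, (cnt (fun v : H × E => τ (ψ s * v.1, v.2) ≠ sh (q (ψ s))⁻¹ (τ v)) : ℝ) := by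
  obtain ⟨w', hw1, hw2⟩ := fib_inv hε h (tw q τ)
  have h1 : ∀ s ∈ S, (cnt (fun v : H × E => tw q τ (ψ s * v.1, v.2) ≠ tw q τ v) : ℝ) =
      (cnt (fun v : H × E => τ (ψ s * v.1, v.2) ≠ sh (q (ψ s))⁻¹ (τ v)) : ℝ) := by
    intro s _
    congr 1
    exact cnt_congr fun v => not_congr (tw_iff q τ (ψ s) v)
  rw [Finset.sum_congr rfl h1] at hw2
  have h2 : cnt (fun v : H × E => tw q τ (v.1 * x, v.2) ≠ w' (v.1 * x, v.2)) = cnt (fun v => tw q τ v ≠ w' v) :=
    cnt_equiv (Equiv.prodCongr (Equiv.mulRight x) (Equiv.refl E)) (fun v => tw q τ v ≠ w' v)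
  have h3 : cnt (fun v => τ v ≠ none) ≤ cnt (fun v => tw q τ v ≠ w' v) + cnt (fun v : H × E => tw q τ (v.1 * x, v.2) ≠ w' (v.1 * x, v.2)) := by
    refine cnt_le_add fun v hv => ?_
    by_contra hcon
    push Not at hcon
    obtain ⟨hc1, hc2⟩ := hcon
    rw [hw1 v.1 v.2 x hxK] at hc2
    have hc3 : tw q τ (v.1 * x, v.2) = tw q τ v := by rw [hc2, ← hc1]
    unfold tw at hc3
    simp only at hc3
    rw [hτ, map_mul, ← sh_sh] at hc3
    obtain ⟨z, hz⟩ := Option.ne_none_iff_exists'.1 hv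
    rw [hz] at hc3
    have h4 : z * q v.1 * q x = z * q v.1 := by
      have e1 : sh (q x) (sh (q v.1) (some z)) = some (z * q v.1 * q x) := rfl
      have e2 : sh (q v.1) (some z) = some (z * q v.1) := rfl
      rw [e1, e2] at hc3
      exact Option.some_injective _ hc3
    exact hx (mul_eq_left.1 h4)
  rw [h2] at h3
  have h4 : (cnt (fun v => τ v ≠ none) : ℝ) ≤ cnt (fun v => tw q τ v ≠ w' v) + cnt (fun v => tw q τ v ≠ w' v) := by exact_mod_cast h3
  linarith

end TauE
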