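import Pool.Agent.helper39.TK.ExpA

/-! TK-6b (MP_290026_an): number of nearly equivariant functions.
`w v = tw q τ v`, `w'` of `fib_inv` for `w` (`∑_s ≤ |S| δ |H × E|` by `tw_iff`); `τ` is determined by `w`, and `w` by the function `y : (H ⧸ K) × E → Option Q` of `w'` and by
`f v = if w v = w' v then none else some (w v)`; number of `y`: `(|Q|+1) ^ (|H/K| |E|)`, `|H/K| |E| |K| = |H × E|`; number of `f`: `ham`. -/

set_option autoImplicit false

open Filter Topology

noncomputable section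

namespace TauE

open SofE hiding Al tt sh XX XX_smul MOK near ent_le lower_gen lower2 lower3

theorem few {Γ Q : Type} [Group Q] [Fintype Q] {ε : ℝ} (hε : 0 < ε) (S : Finset Γ) {θ : ℝ} (hθ : 0 < θ) :
    ∃ δ : ℝ, 0 < δ ∧ ∃ M : ℕ, ∀ (H E : Type) [Group H] [Fintype H] [Fintype E] [DecidableEq H] [DecidableEq E] (K : Subgroup H) (ψ : Γ → H)
      (q : H →* Q), Expd ε S ψ K → M ≤ Nat.card K →
      (cnt (fun τ : H × E → Option Q => ∀ s ∈ S,
        (cnt (fun v : H × E => τ (ψ s * v.1, v.2) ≠ sh (q (ψ s))⁻¹ (τ v)) : ℝ) ≤ δ * Fintype.card (H × E)) : ℝ) ≤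
        Real.exp (θ * Fintype.card (H × E)) := by
  classical
  obtain ⟨θ1, hθ1, -, hham⟩ := ham (Fintype.card (Option (Option Q))) (η := θ / 2) (by positivity)
  set cQ : ℝ := (Fintype.card (Option Q) : ℝ) with hcQ
  have hcQ0 : 0 < cQ := by
    have : 0 < Fintype.card (Option Q) := Fintype.card_pos
    rw [hcQ]
    exact_mod_cast this
  obtain ⟨M, hM⟩ := exists_nat_ge (2 * Real.log cQ / θ)
  refine ⟨θ1 * ε / (S.card + 1), by positivity, M, ?_⟩
  intro H E _ _ _ _ _ K ψ q hexp hMK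
  have : Fintype (H ⧸ K) := Fintype.ofFinite _
  set V := H × E with hV
  let P : (V → Option Q) → Prop := fun τ => ∀ s ∈ S,
    (cnt (fun v : H × E => τ (ψ s * v.1, v.2) ≠ sh (q (ψ s))⁻¹ (τ v)) : ℝ) ≤ θ1 * ε / (S.card + 1) * Fintype.card V
  have hy : ∀ τ, P τ → ∃ w' : V → Option Q, (∀ a e, ∀ k ∈ K, w' (a * k, e) = w' (a, e)) ∧
      (cnt (fun v => tw q τ v ≠ w' v) : ℝ) ≤ θ1 * Fintype.card V := by
    intro τ hτ
    obtain ⟨w', h0, h1⟩ := fib_inv hε hexp (tw q τ)
    refine ⟨w', h0, h1.trans ?_⟩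
    have h2 : ∑ s ∈ S, (cnt (fun v : H × E => tw q τ (ψ s * v.1, v.2) ≠ tw q τ v) : ℝ) ≤ S.card * (θ1 * ε / (S.card + 1) * Fintype.card V) := by
      rw [← nsmul_eq_mul]
      refine Finset.sum_le_card_nsmul S _ _ fun s hs => ?_
      refine le_trans ?_ (hτ s hs)
      have h3 : cnt (fun v : H × E => tw q τ (ψ s * v.1, v.2) ≠ tw q τ v) ≤ cnt (fun v : H × E => τ (ψ s * v.1, v.2) ≠ sh (q (ψ s))⁻¹ (τ v)) :=
        cnt_mono fun v hv hcon => hv ((tw_iff q τ (ψ s) v).2 hcon)
      exact_mod_cast h3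
    have h4 : ε⁻¹ * (S.card * (θ1 * ε / (S.card + 1) * Fintype.card V)) ≤ θ1 * Fintype.card V := by
      have h5 : ε⁻¹ * (S.card * (θ1 * ε / (S.card + 1) * Fintype.card V)) = (S.card / (S.card + 1)) * (θ1 * Fintype.card V) := by
        field_simp
      rw [h5]
      have h6 : (S.card : ℝ) / (S.card + 1) ≤ 1 := by
        rw [div_le_one (by positivity)]
        linarith
      have h7 : 0 ≤ θ1 * (Fintype.card V : ℝ) := by positivity
      exact mul_le_of_le_one_left h7 h6
    exact (mul_le_mul_of_nonneg_left h2 (by positivity)).trans h4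
  let w' : (V → Option Q) → V → Option Q := fun τ => if h : P τ then (hy τ h).choose else fun _ => none
  have hyP : ∀ τ, P τ → (cnt (fun v => tw q τ v ≠ w' τ v) : ℝ) ≤ θ1 * Fintype.card V := by
    intro τ h
    have h1 : w' τ = (hy τ h).choose := dif_pos h
    rw [h1]
    exact (hy τ h).choose_spec.2
  have hyK : ∀ τ a e, ∀ k ∈ K, w' τ (a * k, e) = w' τ (a, e) := by
    intro τ
    by_cases h : P τ
    · have h1 : w' τ = (hy τ h).choose := dif_pos h
      rw [h1]
      exact (hy τ h).choose_spec.1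
    · have h1 : w' τ = fun _ => none := dif_neg h
      rw [h1]
      exact fun _ _ _ _ => rfl
  let y : (V → Option Q) → (H ⧸ K) × E → Option Q := fun τ c => w' τ (c.1.out, c.2)
  have hwy : ∀ τ v, w' τ v = y τ ((v.1 : H ⧸ K), v.2) := by
    intro τ v
    obtain ⟨k, hk⟩ := QuotientGroup.mk_out_eq_mul K v.1
    show w' τ v = w' τ ((v.1 : H ⧸ K).out, v.2)
    rw [hk, hyK τ v.1 v.2 k k.2]
  let f : (V → Option Q) → V → Option (Option Q) := fun τ v => if tw q τ v = w' τ v then none else some (tw q τ v)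
  have hf1 : ∀ τ v, f τ v ≠ none ↔ tw q τ v ≠ w' τ v := by
    intro τ v
    show (if tw q τ v = w' τ v then none else some (tw q τ v)) ≠ none ↔ _
    by_cases h : tw q τ v = w' τ v
    · rw [if_pos h]
      exact ⟨fun h' => absurd rfl h', fun h' => absurd h h'⟩
    · rw [if_neg h]
      exact ⟨fun _ => h, fun _ => Option.some_ne_none _⟩
  have hf2 : ∀ τ v, tw q τ v = (f τ v).getD (w' τ v) := by
    intro τ v
    show tw q τ v = (if tw q τ v = w' τ v then none else some (tw q τ v) : Option (Option Q)).getD (w' τ v)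
    by_cases h : tw q τ v = w' τ v
    · rw [if_pos h]
      exact h
    · rw [if_neg h]
      rfl
  have h1 : cnt P ≤ cnt (fun x : ((H ⧸ K) × E → Option Q) × (V → Option (Option Q)) => True ∧ (cnt (fun v => x.2 v ≠ none) : ℝ) ≤ θ1 * Fintype.card V) := by
    refine cnt_le_of_inj (fun τ => (y τ, f τ)) ?_ ?_
    · intro τ τ' _ _ h
      have e1 : y τ = y τ' := congrArg Prod.fst h
      have e2 : f τ = f τ' := congrArg Prod.snd h
      funext v
      apply sh_inj (q v.1)
      show tw q τ v = tw q τ' v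
      rw [hf2 τ v, hf2 τ' v, hwy τ v, hwy τ' v, e1, e2]
    · intro τ hτ
      refine ⟨trivial, ?_⟩
      rw [cnt_congr (hf1 τ)]
      exact hyP τ hτ
  rw [cnt_prod (fun _ : (H ⧸ K) × E → Option Q => True) (fun x : V → Option (Option Q) => (cnt (fun v => x v ≠ none) : ℝ) ≤ θ1 * Fintype.card V),
    cnt_true, Fintype.card_fun] at h1
  have h2 := hham V (Option (Option Q)) none le_rfl
  have h3 : (cnt P : ℝ) ≤ cQ ^ (Fintype.card ((H ⧸ K) × E)) *
      (cnt (fun x : V → Option (Option Q) => (cnt (fun v => x v ≠ none) : ℝ) ≤ θ1 * Fintype.card V) : ℝ) := by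
    rw [hcQ]
    exact_mod_cast h1
  refine h3.trans ((mul_le_mul_of_nonneg_left h2 (by positivity)).trans ?_)
  have h4 : cQ ^ (Fintype.card ((H ⧸ K) × E)) = Real.exp (Real.log cQ * Fintype.card ((H ⧸ K) × E)) := by
    rw [← Real.rpow_natCast, Real.rpow_def_of_pos hcQ0]
  rw [h4, ← Real.exp_add]
  refine Real.exp_le_exp.2 ?_
  have h5 : Real.log cQ ≤ θ / 2 * Nat.card K := by
    have h6 : 2 * Real.log cQ / θ ≤ Nat.card K := hM.trans (by exact_mod_cast hMK)
    rw [div_le_iff₀ hθ] at h6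
    linarith
  have h7 : (Fintype.card V : ℝ) = Nat.card K * Fintype.card ((H ⧸ K) × E) := by
    have h9 : Fintype.card V = Nat.card K * Fintype.card ((H ⧸ K) × E) := by
      show Fintype.card (H × E) = _
      rw [Fintype.card_prod, Fintype.card_prod, ← Nat.card_eq_fintype_card (α := H), Subgroup.card_eq_card_quotient_mul_card_subgroup K,
        Nat.card_eq_fintype_card (α := H ⧸ K)]
      ring
    exact_mod_cast h9
  have h8 : Real.log cQ * Fintype.card ((H ⧸ K) × E) ≤ θ / 2 * Nat.card K * Fintype.card ((H ⧸ K) × E) :=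
    mul_le_mul_of_nonneg_right h5 (Nat.cast_nonneg _)
  rw [h7]
  nlinarith

end TauE
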