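import Pool.Agent.helper39.TK.MainP

/-! TK-11 (MP_290026_an): the final form with sets. -/

set_option autoImplicit false

open Filter Topology

noncomputable section

namespace TauE

open SofE hiding Al tt sh XX XX_smul MOK near ent_le lower_gen lower2 lower3

theorem ncard_cnt {α : Type} [Fintype α] (s : Set α) : s.ncard = cnt (fun a => a ∈ s) := by
  classical
  rw [cnt_eq, Set.ncard_eq_toFinset_card']
  congr 1
  ext a
  simp

theorem final (Γ Δ Q : Type) [Group Γ] [Group Δ] [Group Q] [Countable Γ] [Countable Δ] [Finite Q]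
    (hΔ : ∃ (k : ℕ → ℕ) (π : ∀ n, Δ → Equiv.Perm (Fin (k n))), IsSofic k π)
    (N : Subgroup Γ) [N.Normal] (p : Γ →* Q) (hp : Function.Surjective p) (Q0 : Subgroup Q) (hQ0 : ∃ g ∈ N, p g ∈ Q0 ∧ p g ≠ 1)
    (G : ℕ → Type) [∀ n, Group (G n)] [∀ n, Finite (G n)] (K : ∀ n, Subgroup (G n)) [∀ n, (K n).Normal]
    (φ : ∀ n, Γ → G n) (q : ∀ n, G n →* Q)
    (hφ : ∀ a b : Γ, ∀ᶠ n in atTop, φ n (a * b) = φ n a * φ n b ∧ (a ≠ 1 → φ n a ≠ 1) ∧ (φ n a ∈ K n ↔ a ∈ N) ∧ q n (φ n a) = p a)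
    (hN : ∀ c ∈ N, c ≠ 1 → p c ∈ Q0 → ((fun g : Γ => g * c * g⁻¹) '' (N : Set Γ)).Infinite ∨
      Tendsto (fun n => ({x : G n | x ∈ K n ∧ φ n c ∈ Subgroup.zpowers x}.ncard : ℝ) / (Nat.card (K n) : ℝ)) atTop (𝓝 0))
    (S : Finset Γ) (ε : ℝ) (hε : 0 < ε)
    (hS : ∀ n, ∀ A : Set (G n), ∃ B : Set (G n), (∀ b ∈ B, ∀ k ∈ K n, b * k ∈ B) ∧
      ε * ((symmDiff A B).ncard : ℝ) ≤ ∑ s ∈ S, ({a ∈ A | φ n s * a ∉ A}.ncard : ℝ)) :
    Concl (Γ × Δ) := by
  classical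
  letI : Fintype Q := Fintype.ofFinite Q
  letI : ∀ n, Fintype (G n) := fun n => Fintype.ofFinite (G n)
  have hmul : ∀ a b, ∀ᶠ n in atTop, φ n (a * b) = φ n a * φ n b := fun a b => (hφ a b).mono fun n h => h.1
  have hne : ∀ a, a ≠ 1 → ∀ᶠ n in atTop, φ n a ≠ 1 := fun a ha => (hφ a a).mono fun n h => h.2.1 ha
  have hK : ∀ a, ∀ᶠ n in atTop, (φ n a ∈ K n ↔ a ∈ N) := fun a => (hφ a a).mono fun n h => h.2.2.1
  refine main hΔ p hp N Q0 hQ0 G K φ q ?_ hmul hne hK (fun a => (hφ a a).mono fun n h => h.2.2.2) S hε ?_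
  · intro c hc hc1 hcQ
    rcases hN c hc hc1 hcQ with h | h
    · refine Bd_of_inf hmul hne (fun a ha => ?_) h
      filter_upwards [hK a] with n hn
      exact hn.2 ha
    · refine Bd_of_tendsto (h.congr fun n => ?_)
      rw [ncard_cnt]
      have h2 : cnt (fun x => x ∈ K n) = Nat.card (K n) := by
        rw [cnt_eq, Nat.card_eq_fintype_card, Fintype.card_subtype]
      rw [h2]
      rfl
  · intro n A
    obtain ⟨B, hB1, hB2⟩ := hS n {a | A a}
    refine ⟨fun a => a ∈ B, fun a k hk => ⟨fun h => ?_, fun h => hB1 a h k hk⟩, ?_⟩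
    · have := hB1 _ h k⁻¹ ((K n).inv_mem hk)
      rwa [mul_inv_cancel_right] at this
    · rw [ncard_cnt] at hB2
      have h1 : cnt (fun a => a ∈ symmDiff {a | A a} B) = cnt (fun a => ¬ (A a ↔ a ∈ B)) := by
        refine cnt_congr fun a => ?_
        rw [Set.mem_symmDiff]
        simp only [Set.mem_setOf_eq]
        tauto
      rw [h1] at hB2
      refine hB2.trans (le_of_eq (Finset.sum_congr rfl fun s _ => ?_))
      rw [ncard_cnt]
      rfl

end TauE
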