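import Pool.Agent.helper39.TK.DefsP

/-! TK-8 (MP_290026_an): choice of a cyclic subgroup.
`E = {x ∈ K | q x ∈ Q0, q x ≠ 1}` has at least `|K| / |Q|` elements (translate of `K ⊓ ker q` by the given one). If `c` is of the first kind, no
`a⁻¹ c a` is in `zpowers x` for `x ∈ E`. If `c` is of the second kind, `|C_K(c)| * m ≤ |K|` (`(j, z) ↦ j z` is injective on `J × C_K(c)`), and
`∑_{x ∈ E} cnt (a⁻¹ c a ∈ zpowers x) ≤ ∑_a #{x ∈ K | x commutes with a⁻¹ c a} = |H| |C_K(c)|` (`K` is normal). So `∑_{x ∈ E} ∑_{c ∈ C} cnt ≤ |C| |H| |K| / m ≤ ε |H| |K| / |Q| ≤ ε |H| |E|`;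
take `x` with `∑_c cnt ≤ ε |H|`. (`m = 0` gives `|C| = 0`, trivial.) -/

set_option autoImplicit false

noncomputable section

namespace TauE

open SofE hiding Al tt sh XX XX_smul MOK near ent_le lower_gen lower2 lower3

/-- few elements of `K` commute with `c`, if `c` has many conjugates under `K` -/
theorem J_bound {H : Type} [Group H] [Fintype H] (K : Subgroup H) (c : H) (m : ℕ) (J : Finset H) (hJ1 : ∀ j ∈ J, j ∈ K) (hJ2 : m ≤ J.card)
    (hJ3 : Set.InjOn (fun j => j * c * j⁻¹) (J : Set H)) :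
    m * cnt (fun x => x ∈ K ∧ c ∈ Subgroup.zpowers x) ≤ cnt (fun x => x ∈ K) := by
  classical
  have h0 : cnt (fun x => x ∈ K ∧ c ∈ Subgroup.zpowers x) ≤ (Finset.univ.filter (fun x => x ∈ K ∧ x * c = c * x)).card := by
    rw [← cnt_eq]
    refine cnt_mono fun x hx => ⟨hx.1, ?_⟩
    obtain ⟨n, hn⟩ := Subgroup.mem_zpowers_iff.1 hx.2
    rw [← hn]
    exact ((Commute.refl x).zpow_right n).eq
  refine (Nat.mul_le_mul hJ2 h0).trans ?_
  rw [← Finset.card_product, cnt_eq]
  refine Finset.card_le_card_of_injOn (fun p => p.1 * p.2) ?_ ?_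
  · intro p hp
    rw [Finset.mem_coe, Finset.mem_product, Finset.mem_filter] at hp
    rw [Finset.mem_coe, Finset.mem_filter]
    exact ⟨Finset.mem_univ _, K.mul_mem (hJ1 _ hp.1) hp.2.2.1⟩
  · rintro ⟨j, x⟩ hp ⟨j', x'⟩ hp' h
    rw [Finset.mem_coe, Finset.mem_product, Finset.mem_filter] at hp hp'
    have h1 : j * x = j' * x' := h
    have hx : x * c = c * x := hp.2.2.2
    have hx' : x' * c = c * x' := hp'.2.2.2
    have h2 : j * c * j⁻¹ = j' * c * j'⁻¹ := by
      have e1 : (j * x) * c * (j * x)⁻¹ = j * c * j⁻¹ := by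
        have : (j * x) * c * (j * x)⁻¹ = j * (x * c) * x⁻¹ * j⁻¹ := by group
        rw [this, hx]
        group
      have e2 : (j' * x') * c * (j' * x')⁻¹ = j' * c * j'⁻¹ := by
        have : (j' * x') * c * (j' * x')⁻¹ = j' * (x' * c) * x'⁻¹ * j'⁻¹ := by group
        rw [this, hx']
        group
      rw [← e1, ← e2, h1]
    have h3 : j = j' := hJ3 hp.1 hp'.1 h2
    subst h3
    have h4 : x = x' := mul_left_cancel h1
    subst h4
    rfl

/-- the number of the elements of `K` which generate a subgroup containing a conjugate of `c` -/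
theorem conj_cnt {H : Type} [Group H] [Fintype H] (K : Subgroup H) [K.Normal] (c a : H) :
    cnt (fun x => x ∈ K ∧ a⁻¹ * c * a ∈ Subgroup.zpowers x) = cnt (fun x => x ∈ K ∧ c ∈ Subgroup.zpowers x) := by
  rw [← cnt_equiv (MulAut.conj a).toEquiv (fun x => x ∈ K ∧ c ∈ Subgroup.zpowers x)]
  refine cnt_congr fun x => ?_
  have e1 : (MulAut.conj a).toEquiv x = a * x * a⁻¹ := rfl
  rw [e1]
  refine and_congr ?_ ?_
  · constructor
    · intro h
      exact Subgroup.Normal.conj_mem ‹K.Normal› x h a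
    · intro h
      have := Subgroup.Normal.conj_mem ‹K.Normal› _ h a⁻¹
      have e2 : a⁻¹ * (a * x * a⁻¹) * a⁻¹⁻¹ = x := by group
      rwa [e2] at this
  · rw [Subgroup.mem_zpowers_iff, Subgroup.mem_zpowers_iff]
    refine exists_congr fun n => ?_
    rw [conj_zpow]
    constructor
    · intro h
      rw [h]
      group
    · intro h
      rw [← h]
      group

theorem pick {H Q : Type} [Group H] [Fintype H] [Group Q] [Fintype Q] (K : Subgroup H) [K.Normal] (q : H →* Q) (Q0 : Subgroup Q)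
    (hq : ∃ x ∈ K, q x ∈ Q0 ∧ q x ≠ 1) (C : Finset H) (m : ℕ) {ε : ℝ} (hm : (C.card : ℝ) * Fintype.card Q ≤ ε * m)
    (hC : ∀ c ∈ C, (∀ a, a⁻¹ * c * a ∈ K → q (a⁻¹ * c * a) ∉ Q0) ∨
      m * cnt (fun x => x ∈ K ∧ c ∈ Subgroup.zpowers x) ≤ cnt (fun x => x ∈ K)) :
    ∃ x ∈ K, q x ≠ 1 ∧ ∀ c ∈ C, (cnt (fun a : H => a⁻¹ * c * a ∈ Subgroup.zpowers x) : ℝ) ≤ ε * Fintype.card H := by
  classical
  obtain ⟨x0, hx0K, hx0, hx01⟩ := hq
  have hQpos : 0 < Fintype.card Q := Fintype.card_pos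
  -- the trivial case
  rcases Nat.eq_zero_or_pos m with hm0 | hm0
  · subst hm0
    have hC0 : C.card = 0 := by
      by_contra hne
      have h1 : (1 : ℝ) ≤ C.card := by exact_mod_cast Nat.one_le_iff_ne_zero.2 hne
      have h2 : (1 : ℝ) ≤ Fintype.card Q := by exact_mod_cast hQpos
      have h3 : (1 : ℝ) ≤ (C.card : ℝ) * Fintype.card Q := by nlinarith
      push_cast at hm
      linarith
    rw [Finset.card_eq_zero] at hC0
    subst hC0
    exact ⟨x0, hx0K, hx01, fun c hc => absurd hc (Finset.notMem_empty c)⟩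
  -- the set of candidates
  set E : Finset H := Finset.univ.filter (fun x => x ∈ K ∧ q x ∈ Q0 ∧ q x ≠ 1) with hE
  set Kf : Finset H := Finset.univ.filter (fun x => x ∈ K) with hKf
  have hKE : Kf.card ≤ E.card * Fintype.card Q := by
    let r : Q → H := fun z => if h : ∃ k ∈ K, q k = z then h.choose else 1
    have hr : ∀ k ∈ K, r (q k) ∈ K ∧ q (r (q k)) = q k := by
      intro k hk
      have h : ∃ k' ∈ K, q k' = q k := ⟨k, hk, rfl⟩
      have h1 : r (q k) = h.choose := dif_pos h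
      rw [h1]
      exact h.choose_spec
    have h1 : Kf.card ≤ (E ×ˢ (Finset.univ : Finset Q)).card := by
      refine Finset.card_le_card_of_injOn (fun k => (x0 * k * (r (q k))⁻¹, q k)) ?_ ?_
      · intro k hk
        rw [Finset.mem_coe, hKf, Finset.mem_filter] at hk
        obtain ⟨h2, h3⟩ := hr k hk.2
        have h4 : q (x0 * k * (r (q k))⁻¹) = q x0 := by
          rw [map_mul, map_mul, map_inv, h3, mul_inv_cancel_right]
        rw [Finset.mem_coe, Finset.mem_product]
        refine ⟨?_, Finset.mem_univ _⟩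
        rw [hE, Finset.mem_filter]
        refine ⟨Finset.mem_univ _, K.mul_mem (K.mul_mem hx0K hk.2) (K.inv_mem h2), ?_, ?_⟩
        · show q (x0 * k * (r (q k))⁻¹) ∈ Q0
          rw [h4]
          exact hx0
        · show q (x0 * k * (r (q k))⁻¹) ≠ 1
          rw [h4]
          exact hx01
      · intro k _ k' _ h
        have e1 : x0 * k * (r (q k))⁻¹ = x0 * k' * (r (q k'))⁻¹ := congrArg Prod.fst h
        have e2 : q k = q k' := congrArg Prod.snd h
        rw [e2] at e1
        exact mul_left_cancel (mul_right_cancel e1)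
    rw [Finset.card_product, Finset.card_univ] at h1
    exact h1
  have hEpos : 0 < E.card := Finset.card_pos.2 ⟨x0, by
    rw [hE, Finset.mem_filter]
    exact ⟨Finset.mem_univ _, hx0K, hx0, hx01⟩⟩
  -- the sum over the candidates
  have hsum : ∀ c ∈ C, m * ∑ x ∈ E, cnt (fun a : H => a⁻¹ * c * a ∈ Subgroup.zpowers x) ≤ Fintype.card H * Kf.card := by
    intro c hc
    rcases hC c hc with h1 | h1
    · have h2 : ∑ x ∈ E, cnt (fun a : H => a⁻¹ * c * a ∈ Subgroup.zpowers x) = 0 := by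
        refine Finset.sum_eq_zero fun x hx => ?_
        rw [cnt_eq_zero]
        intro a ha
        rw [hE, Finset.mem_filter] at hx
        obtain ⟨n, hn⟩ := Subgroup.mem_zpowers_iff.1 ha
        refine h1 a ?_ ?_
        · rw [← hn]
          exact K.zpow_mem hx.2.1 n
        · rw [← hn, map_zpow]
          exact Q0.zpow_mem hx.2.2.1 n
      rw [h2, mul_zero]
      exact Nat.zero_le _
    · have h3 : ∑ x ∈ E, cnt (fun a : H => a⁻¹ * c * a ∈ Subgroup.zpowers x) ≤
          ∑ a : H, cnt (fun x => x ∈ K ∧ a⁻¹ * c * a ∈ Subgroup.zpowers x) := by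
        have e1 : ∀ x ∈ E, cnt (fun a : H => a⁻¹ * c * a ∈ Subgroup.zpowers x) =
            ∑ a : H, if (x ∈ K ∧ a⁻¹ * c * a ∈ Subgroup.zpowers x) then 1 else 0 := by
          intro x hx
          rw [hE, Finset.mem_filter] at hx
          rw [← cnt_sum (fun a : H => x ∈ K ∧ a⁻¹ * c * a ∈ Subgroup.zpowers x)]
          exact cnt_congr fun a => ⟨fun ha => ⟨hx.2.1, ha⟩, fun ha => ha.2⟩
        rw [Finset.sum_congr rfl e1, Finset.sum_comm]
        refine Finset.sum_le_sum fun a _ => ?_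
        rw [cnt_sum]
        exact Finset.sum_le_sum_of_subset (Finset.subset_univ _)
      have h4 : ∑ a : H, cnt (fun x => x ∈ K ∧ a⁻¹ * c * a ∈ Subgroup.zpowers x) =
          Fintype.card H * cnt (fun x => x ∈ K ∧ c ∈ Subgroup.zpowers x) := by
        rw [Finset.sum_congr rfl fun a _ => conj_cnt K c a, Finset.sum_const, Finset.card_univ, smul_eq_mul]
      rw [h4] at h3
      have h5 : Kf.card = cnt (fun x => x ∈ K) := (cnt_eq _).symm
      rw [h5]
      calc m * ∑ x ∈ E, cnt (fun a : H => a⁻¹ * c * a ∈ Subgroup.zpowers x)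
          ≤ m * (Fintype.card H * cnt (fun x => x ∈ K ∧ c ∈ Subgroup.zpowers x)) := Nat.mul_le_mul_left m h3
        _ = Fintype.card H * (m * cnt (fun x => x ∈ K ∧ c ∈ Subgroup.zpowers x)) := by ring
        _ ≤ Fintype.card H * cnt (fun x => x ∈ K) := Nat.mul_le_mul_left _ h1
  have htot : (m : ℝ) * ∑ x ∈ E, ∑ c ∈ C, (cnt (fun a : H => a⁻¹ * c * a ∈ Subgroup.zpowers x) : ℝ) ≤
      (m : ℝ) * ∑ x ∈ E, ε * Fintype.card H := by
    have e1 : (m : ℝ) * ∑ x ∈ E, ∑ c ∈ C, (cnt (fun a : H => a⁻¹ * c * a ∈ Subgroup.zpowers x) : ℝ) =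
        ∑ c ∈ C, (m : ℝ) * ∑ x ∈ E, (cnt (fun a : H => a⁻¹ * c * a ∈ Subgroup.zpowers x) : ℝ) := by
      rw [Finset.sum_comm, Finset.mul_sum]
    rw [e1]
    have e2 : ∑ c ∈ C, (m : ℝ) * ∑ x ∈ E, (cnt (fun a : H => a⁻¹ * c * a ∈ Subgroup.zpowers x) : ℝ) ≤
        ∑ _c ∈ C, (Fintype.card H * Kf.card : ℝ) := by
      refine Finset.sum_le_sum fun c hc => ?_
      exact_mod_cast hsum c hc
    refine e2.trans ?_
    rw [Finset.sum_const, Finset.sum_const, nsmul_eq_mul, nsmul_eq_mul]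
    have e3 : (Kf.card : ℝ) ≤ E.card * Fintype.card Q := by exact_mod_cast hKE
    have e4 : (C.card : ℝ) * (Fintype.card H * Kf.card) ≤ C.card * (Fintype.card H * (E.card * Fintype.card Q)) := by gcongr
    refine e4.trans ?_
    have e5 : (C.card : ℝ) * (Fintype.card H * (E.card * Fintype.card Q)) = (C.card * Fintype.card Q) * (Fintype.card H * E.card) := by ring
    rw [e5]
    have e6 : (C.card * Fintype.card Q : ℝ) * (Fintype.card H * E.card) ≤ (ε * m) * (Fintype.card H * E.card) :=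
      mul_le_mul_of_nonneg_right hm (by positivity)
    refine e6.trans (le_of_eq ?_)
    ring
  have hm' : (0 : ℝ) < m := by exact_mod_cast hm0
  have htot2 := le_of_mul_le_mul_left htot hm'
  obtain ⟨x, hxE, hx⟩ := Finset.exists_le_of_sum_le (Finset.card_pos.1 hEpos) htot2
  rw [hE, Finset.mem_filter] at hxE
  refine ⟨x, hxE.2.1, hxE.2.2.2, fun c hc => ?_⟩
  refine le_trans ?_ hx
  exact Finset.single_le_sum (f := fun c => (cnt (fun a : H => a⁻¹ * c * a ∈ Subgroup.zpowers x) : ℝ)) (fun c _ => Nat.cast_nonneg _) hc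

end TauE
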