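import Pool.Agent.helper39.TK.SigP
import Pool.Agent.helper39.TK.PickP
import Pool.Agent.helper39.TK.CritP
import Pool.Agent.helper74.WR.Gp

/-! TK-10 (MP_290026_an): assembly. -/

set_option autoImplicit false

open Filter Topology

noncomputable section

namespace TauE

open SofE hiding Al tt sh XX XX_smul MOK near ent_le lower_gen lower2 lower3

section lef
variable {Γ : Type} [Group Γ] {G : ℕ → Type} [∀ n, Group (G n)] {φ : ∀ n, Γ → G n}

theorem ev_inj (hmul : ∀ a b, ∀ᶠ n in atTop, φ n (a * b) = φ n a * φ n b) (hne : ∀ a, a ≠ 1 → ∀ᶠ n in atTop, φ n a ≠ 1)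
    {a b : Γ} (hab : a ≠ b) : ∀ᶠ n in atTop, φ n a ≠ φ n b := by
  have h1 : a * b⁻¹ ≠ 1 := fun h => hab (by rw [mul_inv_eq_one] at h; exact h)
  filter_upwards [hmul (a * b⁻¹) b, hne _ h1] with n h2 h3 h4
  rw [inv_mul_cancel_right, h4, right_eq_mul] at h2
  exact h3 h2

theorem ev_J (hmul : ∀ a b, ∀ᶠ n in atTop, φ n (a * b) = φ n a * φ n b) (hne : ∀ a, a ≠ 1 → ∀ᶠ n in atTop, φ n a ≠ 1)
    {N : Subgroup Γ} {K : ∀ n, Subgroup (G n)} (hK : ∀ a ∈ N, ∀ᶠ n in atTop, φ n a ∈ K n)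
    {s : Γ} (hs : ((fun g : Γ => g * s * g⁻¹) '' (N : Set Γ)).Infinite) (m : ℕ) :
    ∀ᶠ n in atTop, ∃ J : Finset (G n), (∀ j ∈ J, j ∈ K n) ∧ m ≤ J.card ∧ Set.InjOn (fun j => j * φ n s * j⁻¹) (J : Set (G n)) := by
  classical
  obtain ⟨t, ht, hcard⟩ := hs.exists_subset_card_eq m
  have hg : ∀ d : Γ, ∃ g : Γ, d ∈ t → g ∈ N ∧ g * s * g⁻¹ = d := by
    intro d
    by_cases hd : d ∈ t
    · obtain ⟨g, hg, hg'⟩ := ht hd
      exact ⟨g, fun _ => ⟨hg, hg'⟩⟩
    · exact ⟨1, fun h => absurd h hd⟩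
  choose g hg using hg
  have h0 : ∀ᶠ n in atTop, ∀ d ∈ t, φ n (g d) ∈ K n := by
    rw [eventually_all_finset]
    exact fun d hd => hK _ (hg d hd).1
  have h1 : ∀ᶠ n in atTop, ∀ d ∈ t, φ n (d * g d) = φ n d * φ n (g d) := by
    rw [eventually_all_finset]
    exact fun d _ => hmul _ _
  have h2 : ∀ᶠ n in atTop, ∀ d ∈ t, φ n (g d * s) = φ n (g d) * φ n s := by
    rw [eventually_all_finset]
    exact fun d _ => hmul _ _
  have h3 : ∀ᶠ n in atTop, ∀ d ∈ t, ∀ d' ∈ t, d ≠ d' → φ n d ≠ φ n d' := by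
    rw [eventually_all_finset]
    intro d _
    rw [eventually_all_finset]
    intro d' _
    by_cases hd : d = d'
    · exact Eventually.of_forall fun n h => absurd hd h
    · filter_upwards [ev_inj hmul hne hd] with n hn _
      exact hn
  filter_upwards [h0, h1, h2, h3] with n h0 h1 h2 h3
  have h4 : ∀ d ∈ t, φ n (g d) * φ n s * (φ n (g d))⁻¹ = φ n d := by
    intro d hd
    rw [mul_inv_eq_iff_eq_mul, ← h2 d hd, ← h1 d hd]
    congr 1
    rw [← mul_inv_eq_iff_eq_mul, (hg d hd).2]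
  refine ⟨t.image (fun d => φ n (g d)), ?_, ?_, ?_⟩
  · intro j hj
    obtain ⟨d, hd, rfl⟩ := Finset.mem_image.1 hj
    exact h0 d hd
  · rw [Finset.card_image_of_injOn, hcard]
    intro d hd d' hd' heq
    by_contra hne'
    refine h3 d hd d' hd' hne' ?_
    rw [← h4 d hd, ← h4 d' hd']
    simp only at heq
    rw [heq]
  · intro j hj j' hj' heq
    rw [Finset.mem_coe, Finset.mem_image] at hj hj'
    obtain ⟨d, hd, rfl⟩ := hj
    obtain ⟨d', hd', rfl⟩ := hj'
    simp only at heq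
    rw [h4 d hd, h4 d' hd'] at heq
    by_contra hne'
    by_cases hdd : d = d'
    · exact hne' (by rw [hdd])
    · exact h3 d hd d' hd' hdd heq

/-- few elements of `K n` generate a subgroup containing the image of `c` -/
def Bd (K : ∀ n, Subgroup (G n)) [∀ n, Fintype (G n)] (φ : ∀ n, Γ → G n) (c : Γ) : Prop :=
  ∀ m : ℕ, ∀ᶠ n in atTop, m * cnt (fun x => x ∈ K n ∧ φ n c ∈ Subgroup.zpowers x) ≤ cnt (fun x => x ∈ K n)

theorem Bd_of_inf (hmul : ∀ a b, ∀ᶠ n in atTop, φ n (a * b) = φ n a * φ n b) (hne : ∀ a, a ≠ 1 → ∀ᶠ n in atTop, φ n a ≠ 1)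
    [∀ n, Fintype (G n)] {N : Subgroup Γ} {K : ∀ n, Subgroup (G n)} (hK : ∀ a ∈ N, ∀ᶠ n in atTop, φ n a ∈ K n)
    {s : Γ} (hs : ((fun g : Γ => g * s * g⁻¹) '' (N : Set Γ)).Infinite) : Bd K φ s := by
  intro m
  filter_upwards [ev_J hmul hne hK hs m] with n hn
  obtain ⟨J, hJ1, hJ2, hJ3⟩ := hn
  exact J_bound (K n) _ m J hJ1 hJ2 hJ3

theorem Bd_of_tendsto [∀ n, Fintype (G n)] {K : ∀ n, Subgroup (G n)} {s : Γ}
    (h : Tendsto (fun n => (cnt (fun x => x ∈ K n ∧ φ n s ∈ Subgroup.zpowers x) : ℝ) / (cnt (fun x => x ∈ K n) : ℝ)) atTop (𝓝 0)) :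
    Bd K φ s := by
  intro m
  have h1 : (0 : ℝ) < 1 / ((m : ℝ) + 1) := by positivity
  filter_upwards [h.eventually_lt_const h1] with n hn
  have h2 : (0 : ℝ) < cnt (fun x => x ∈ K n) := by
    have : 0 < cnt (fun x => x ∈ K n) := cnt_pos.2 ⟨1, (K n).one_mem⟩
    exact_mod_cast this
  rw [div_lt_div_iff₀ h2 (by positivity), one_mul] at hn
  have h3 : ((m * cnt (fun x => x ∈ K n ∧ φ n s ∈ Subgroup.zpowers x) : ℕ) : ℝ) ≤ cnt (fun x => x ∈ K n) := by
    push_cast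
    have h4 : (0 : ℝ) ≤ cnt (fun x => x ∈ K n ∧ φ n s ∈ Subgroup.zpowers x) := Nat.cast_nonneg _
    nlinarith
  exact_mod_cast h3

theorem Bd_conj (hmul : ∀ a b, ∀ᶠ n in atTop, φ n (a * b) = φ n a * φ n b)
    [∀ n, Fintype (G n)] {K : ∀ n, Subgroup (G n)} [∀ n, (K n).Normal] {s γ : Γ} (h : Bd K φ (γ⁻¹ * s * γ)) : Bd K φ s := by
  intro m
  filter_upwards [h m, hmul γ (γ⁻¹ * s * γ), hmul s γ] with n h1 h2 h3
  have h4 : γ * (γ⁻¹ * s * γ) = s * γ := by group
  rw [h4, h3] at h2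
  have h5 : φ n (γ⁻¹ * s * γ) = (φ n γ)⁻¹ * φ n s * φ n γ := by
    rw [eq_inv_mul_of_mul_eq h2.symm, mul_assoc]
  rw [h5, conj_cnt] at h1
  exact h1

end lef

theorem main {Γ Δ : Type} [Group Γ] [Group Δ] [Countable Γ] [Countable Δ]
    (hΔ : ∃ (k : ℕ → ℕ) (π : ∀ n, Δ → Equiv.Perm (Fin (k n))), IsSofic k π)
    {Q : Type} [Group Q] [Fintype Q] (p : Γ →* Q) (hp : Function.Surjective p) (N : Subgroup Γ) [N.Normal] (Q0 : Subgroup Q)
    (hQ0 : ∃ g ∈ N, p g ∈ Q0 ∧ p g ≠ 1)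
    (G : ℕ → Type) [∀ n, Group (G n)] [∀ n, Fintype (G n)] (K : ∀ n, Subgroup (G n)) [∀ n, (K n).Normal]
    (φ : ∀ n, Γ → G n) (q : ∀ n, G n →* Q) (hBd : ∀ c ∈ N, c ≠ 1 → p c ∈ Q0 → Bd K φ c)
    (hmul : ∀ a b, ∀ᶠ n in atTop, φ n (a * b) = φ n a * φ n b) (hne : ∀ a, a ≠ 1 → ∀ᶠ n in atTop, φ n a ≠ 1)
    (hK : ∀ a, ∀ᶠ n in atTop, (φ n a ∈ K n ↔ a ∈ N))
    (hq : ∀ a, ∀ᶠ n in atTop, q n (φ n a) = p a) (S : Finset Γ) {ε0 : ℝ} (hε0 : 0 < ε0) (hx : ∀ n, Expd ε0 S (φ n) (K n)) :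
    Concl (Γ × Δ) := by
  classical
  have hK' : ∀ a ∈ N, ∀ᶠ n in atTop, φ n a ∈ K n := by
    intro a ha
    filter_upwards [hK a] with n hn
    exact hn.2 ha
  -- an element with image in `Q0`
  obtain ⟨g0, hg0N, hz, hz1⟩ := hQ0
  have hg0 : g0 ≠ 1 := by
    rintro rfl
    exact hz1 (map_one p)
  have hbig : ∀ M : ℕ, ∀ᶠ n in atTop, M ≤ Nat.card (K n) := by
    intro M
    filter_upwards [hBd g0 hg0N hg0 hz M, hK' g0 hg0N] with n hn hn'
    have h1 : 1 ≤ cnt (fun x => x ∈ K n ∧ φ n g0 ∈ Subgroup.zpowers x) := cnt_pos.2 ⟨φ n g0, hn', Subgroup.mem_zpowers _⟩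
    have h2 : cnt (fun x => x ∈ K n) = Nat.card (K n) := by
      rw [cnt_eq, Nat.card_eq_fintype_card, Fintype.card_subtype]
    rw [← h2]
    exact (Nat.le_mul_of_pos_right M h1).trans hn
  choose dl hdl MM hMM using fun θ : {θ : ℝ // 0 < θ} => sig1 (Δ := Δ) (Q := Q) hε0 S θ.2
  set del : ℝ → ℝ := fun θ => if h : 0 < θ then min (dl ⟨θ, h⟩) (θ * ε0 / (2 * (S.card + 1))) else 1 with hdel
  have hdel_pos : ∀ θ, 0 < θ → 0 < del θ := by
    intro θ hθ
    rw [hdel]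
    simp only [dif_pos hθ]
    exact lt_min (hdl _) (by positivity)
  have hdel1 : ∀ θ (h : 0 < θ), del θ ≤ dl ⟨θ, h⟩ := by
    intro θ hθ
    rw [hdel]
    simp only [dif_pos hθ]
    exact min_le_left _ _
  have hdel2 : ∀ θ, 0 < θ → del θ ≤ θ * ε0 / (2 * (S.card + 1)) := by
    intro θ hθ
    rw [hdel]
    simp only [dif_pos hθ]
    exact min_le_right _ _
  refine crit (p.comp (MonoidHom.fst Γ Δ)) (S.image (fun s => (s, (1 : Δ)))) del hdel_pos ?_ ?_
  · intro F ε hε Θ hΘ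
    set F0 : Finset Γ := F.image Prod.fst with hF0
    set F1 : Finset Δ := F.image Prod.snd with hF1
    have hF : ∀ g ∈ F, g.1 ∈ F0 ∧ g.2 ∈ F1 := fun g hg => ⟨Finset.mem_image_of_mem _ hg, Finset.mem_image_of_mem _ hg⟩
    obtain ⟨m, ρ, hρ, hρ1⟩ := Pool.Agent.helper74.WR.exists_norm hΔ F1 hε
    obtain ⟨mm, hmm⟩ := exists_nat_ge ((F0.card : ℝ) * Fintype.card Q / ε)
    have e1 : ∀ᶠ n in atTop, ∀ s ∈ F0, ∀ t ∈ F0, φ n (s * t) = φ n s * φ n t := by
      rw [eventually_all_finset]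
      intro s _
      rw [eventually_all_finset]
      exact fun t _ => hmul s t
    have e2 : ∀ᶠ n in atTop, ∀ s ∈ F0 ∪ S, q n (φ n s) = p s := by
      rw [eventually_all_finset]
      exact fun s _ => hq s
    have e3 : ∀ᶠ n in atTop, ∀ s ∈ F0, s ≠ 1 → (∀ a, a⁻¹ * φ n s * a ∈ K n → q n (a⁻¹ * φ n s * a) ∉ Q0) ∨
        mm * cnt (fun x => x ∈ K n ∧ φ n s ∈ Subgroup.zpowers x) ≤ cnt (fun x => x ∈ K n) := by
      rw [eventually_all_finset]
      intro s _
      by_cases hs : s = 1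
      · exact Eventually.of_forall fun n h => absurd hs h
      by_cases hB : Bd K φ s
      · filter_upwards [hB mm] with n hn _
        exact Or.inr hn
      · filter_upwards [hq s, hK s] with n hn hn' _
        refine Or.inl fun a haK ha => hB ?_
        have hsK : φ n s ∈ K n := by
          have h1 := (inferInstance : (K n).Normal).conj_mem _ haK a
          have h2 : a * (a⁻¹ * φ n s * a) * a⁻¹ = φ n s := by group
          rwa [h2] at h1
        have hsN : s ∈ N := hn'.1 hsK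
        obtain ⟨γ, hγ⟩ := hp (q n a)
        have h1 : p (γ⁻¹ * s * γ) ∈ Q0 := by
          rw [map_mul, map_mul, map_inv, hγ, ← hn, ← map_inv, ← map_mul, ← map_mul]
          exact ha
        have h2 : γ⁻¹ * s * γ ∈ N := by
          have := (inferInstance : N.Normal).conj_mem s hsN γ⁻¹
          rwa [inv_inv] at this
        have h3 : γ⁻¹ * s * γ ≠ 1 := by
          intro h
          apply hs
          have h4 : γ⁻¹ * s * γ = γ⁻¹ * 1 * γ := by rw [h]; group
          exact mul_left_cancel (mul_right_cancel h4)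
        exact Bd_conj hmul (hBd _ h2 h3 h1)
    have e4 : ∀ᶠ n in atTop, q n (φ n g0) = p g0 := hq g0
    obtain ⟨n, h1, h2, h3, h4, h4'⟩ := (e1.and (e2.and (e3.and (e4.and (hK' g0 hg0N))))).exists
    obtain ⟨x, hxK, hqx, hx'⟩ := pick (K n) (q n) Q0 ⟨φ n g0, h4', by rw [h4]; exact hz, by rw [h4]; exact hz1⟩
      ((F0.filter (fun s => s ≠ 1)).image (φ n)) mm (ε := ε) (by
        have h5 : (((F0.filter (fun s => s ≠ 1)).image (φ n)).card : ℝ) ≤ F0.card := by
          exact_mod_cast Finset.card_image_le.trans (Finset.card_filter_le _ _)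
        have h6 : (F0.card : ℝ) * Fintype.card Q ≤ ε * mm := by
          rw [div_le_iff₀ hε] at hmm
          linarith
        exact (mul_le_mul_of_nonneg_right h5 (Nat.cast_nonneg _)).trans h6) (by
        intro c hc
        obtain ⟨s, hs, rfl⟩ := Finset.mem_image.1 hc
        rw [Finset.mem_filter] at hs
        exact h3 s hs.1 hs.2)
    set P : Subgroup (G n) := Subgroup.zpowers x with hP
    have hAppr : Appr F ε (actP P (φ n) ρ) := by
      refine act_appr P hε.le hF h1 (fun s hs hs1 => ?_) hρ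
      exact hx' _ (Finset.mem_image_of_mem _ (Finset.mem_filter.2 ⟨hs, hs1⟩))
    let e := Fintype.equivFin ((G n ⧸ P) × Fin m)
    refine ⟨_, fun g => e.permCongr (actP P (φ n) ρ g), hAppr.transport e, ?_⟩
    intro θ hθ τ hτ
    have hθ0 := hΘ θ hθ
    have h5 : ∀ s ∈ S, near (del θ) (actP P (φ n) ρ (s, 1)) (q n (φ n s))⁻¹ (fun v => τ (e v)) := by
      intro s hs
      have h6 := hτ (s, 1) (Finset.mem_image_of_mem _ hs)
      have h7 := (near_transport e (actP P (φ n) ρ (s, 1)) _ τ).1 h6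
      have h8 : (p.comp (MonoidHom.fst Γ Δ)) (s, (1 : Δ)) = q n (φ n s) := by
        rw [h2 s (Finset.mem_union_right _ hs)]
        rfl
      rw [h8] at h7
      exact h7
    have h6 := sig0 hε0 (hx n) (q n) hxK hqx hρ1 (fun v => τ (e v)) h5
    have h7 : cnt (fun v => τ v ≠ none) = cnt (fun v => τ (e v) ≠ none) := (cnt_equiv e (fun v => τ v ≠ none)).symm
    rw [h7]
    refine h6.trans (mul_le_mul_of_nonneg_right ?_ (Nat.cast_nonneg _))
    have h8 := hdel2 θ hθ0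
    have h9 : (S.card : ℝ) * del θ ≤ (S.card + 1) * (θ * ε0 / (2 * (S.card + 1))) := by
      have := hdel_pos θ hθ0
      calc (S.card : ℝ) * del θ ≤ (S.card + 1) * del θ := by nlinarith
        _ ≤ _ := mul_le_mul_of_nonneg_left h8 (by positivity)
    have h10 : ((S.card : ℝ) + 1) * (θ * ε0 / (2 * (S.card + 1))) = θ * ε0 / 2 := by
      field_simp
    rw [h10] at h9
    calc 2 * ε0⁻¹ * (S.card * del θ) ≤ 2 * ε0⁻¹ * (θ * ε0 / 2) := mul_le_mul_of_nonneg_left h9 (by positivity)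
      _ = θ := by field_simp
  · intro F ε hε Θ hΘ
    set F0 : Finset Γ := F.image Prod.fst with hF0
    set F1 : Finset Δ := F.image Prod.snd with hF1
    have hF : ∀ g ∈ F, g.1 ∈ F0 ∧ g.2 ∈ F1 := fun g hg => ⟨Finset.mem_image_of_mem _ hg, Finset.mem_image_of_mem _ hg⟩
    obtain ⟨m, ρ, hρ, hρ1⟩ := Pool.Agent.helper74.WR.exists_norm hΔ F1 hε
    have e1 : ∀ᶠ n in atTop, ∀ s ∈ F0, ∀ t ∈ F0, φ n (s * t) = φ n s * φ n t := by
      rw [eventually_all_finset]
      intro s _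
      rw [eventually_all_finset]
      exact fun t _ => hmul s t
    have e2 : ∀ᶠ n in atTop, ∀ s ∈ F0 ∪ S, q n (φ n s) = p s := by
      rw [eventually_all_finset]
      exact fun s _ => hq s
    have e3 : ∀ᶠ n in atTop, ∀ s ∈ F0, s ≠ 1 → φ n s ≠ 1 := by
      rw [eventually_all_finset]
      intro s _
      by_cases hs : s = 1
      · exact Eventually.of_forall fun n h => absurd hs h
      · filter_upwards [hne s hs] with n hn _
        exact hn
    have e4 : ∀ᶠ n in atTop, ∀ θ ∈ Θ, ∀ h : 0 < θ, MM ⟨θ, h⟩ ≤ Nat.card (K n) := by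
      rw [eventually_all_finset]
      intro θ hθ
      filter_upwards [hbig (MM ⟨θ, hΘ θ hθ⟩)] with n hn _
      exact hn
    obtain ⟨n, h1, h2, h3, h4⟩ := (e1.and (e2.and (e3.and e4))).exists
    have hAppr : Appr F ε (actP (⊥ : Subgroup (G n)) (φ n) ρ) := by
      refine act_appr ⊥ hε.le hF h1 (fun s hs hs1 => ?_) hρ
      have h5 : cnt (fun a : G n => a⁻¹ * φ n s * a ∈ (⊥ : Subgroup (G n))) = 0 := by
        rw [cnt_eq_zero]
        intro a ha
        rw [Subgroup.mem_bot] at ha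
        apply h3 s hs hs1
        have h6 : a⁻¹ * φ n s = a⁻¹ := by
          rw [← mul_left_inj a, ha, inv_mul_cancel]
        exact mul_eq_left.1 h6
      rw [h5]
      push_cast
      positivity
    let e := Fintype.equivFin ((G n ⧸ (⊥ : Subgroup (G n))) × Fin m)
    refine ⟨_, fun g => e.permCongr (actP (⊥ : Subgroup (G n)) (φ n) ρ g), hAppr.transport e, ?_, ?_⟩
    · refine ⟨fun v => (q n (Quotient.out (e.symm v).1))⁻¹, ?_⟩
      intro g hg
      have h5 : cnt (fun v => (q n (Quotient.out (e.symm (e.permCongr (actP (⊥ : Subgroup (G n)) (φ n) ρ g) v)).1))⁻¹ ≠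
          (q n (Quotient.out (e.symm v).1))⁻¹ * ((p.comp (MonoidHom.fst Γ Δ)) g)⁻¹) = 0 := by
        rw [cnt_eq_zero]
        intro v hv
        apply hv
        have h6 : (p.comp (MonoidHom.fst Γ Δ)) g = q n (φ n g.1) := by
          rw [h2 g.1 (Finset.mem_union_left _ (hF g hg).1)]
          rfl
        have h7 : Quotient.out (e.symm (e.permCongr (actP (⊥ : Subgroup (G n)) (φ n) ρ g) v)).1 =
            φ n g.1 * Quotient.out (e.symm v).1 := by
          rw [Equiv.permCongr_apply, Equiv.symm_apply_apply, actP_apply]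
          have h8 : (QuotientGroup.mk (Quotient.out (φ n g.1 • (e.symm v).1)) : G n ⧸ (⊥ : Subgroup (G n))) =
              QuotientGroup.mk (φ n g.1 * Quotient.out (e.symm v).1) := by
            rw [QuotientGroup.out_eq', ← smul_eq_mul, ← MulAction.Quotient.smul_mk, QuotientGroup.out_eq']
          rw [QuotientGroup.eq, Subgroup.mem_bot, inv_mul_eq_one] at h8
          exact h8
        rw [h7, h6, map_mul, mul_inv_rev]
      rw [h5]
      push_cast
      positivity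
    · intro θ hθ
      have hθ0 := hΘ θ hθ
      have h5 := hMM ⟨θ, hθ0⟩ (G n) (Fin m) (Fin (Fintype.card ((G n ⧸ (⊥ : Subgroup (G n))) × Fin m))) (K n) e (φ n) (q n) ρ hρ1 (hx n)
        (h4 θ hθ hθ0)
      rw [Fintype.card_fin] at h5
      refine le_trans ?_ h5
      norm_cast
      refine cnt_mono fun τ hτ s hs => ?_
      have h6 := hτ (s, 1) (Finset.mem_image_of_mem _ hs)
      have h8 : (p.comp (MonoidHom.fst Γ Δ)) (s, (1 : Δ)) = q n (φ n s) := by
        rw [h2 s (Finset.mem_union_right _ hs)]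
        rfl
      rw [h8] at h6
      unfold near at h6 ⊢
      exact h6.trans (mul_le_mul_of_nonneg_right (hdel1 θ hθ0) (Nat.cast_nonneg _))

end TauE
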