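import Pool.Agent.helper39.TK.ActP
import Pool.Agent.helper39.TK.ExpP

/-! TK-9 (MP_290026_an): types on `(H ⧸ P) × E`. -/

set_option autoImplicit false

noncomputable section

namespace TauE

open SofE hiding Al tt sh XX XX_smul MOK near ent_le lower_gen lower2 lower3

/-- nearly equivariant types on the quotient lift to nearly equivariant types -/
theorem near_pull {Γ Δ H E Q : Type} [Group Δ] [Group H] [Fintype H] [Fintype E] [Group Q] (P : Subgroup H) [Fintype P]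
    [Fintype (H ⧸ P)] {ψ : Γ → H} {ρ : Δ → Equiv.Perm E} (hρ : ρ 1 = 1) {s : Γ} {z : Q} {δ : ℝ} {τ : (H ⧸ P) × E → Option Q}
    (h : near δ (actP P ψ ρ (s, 1)) z τ) :
    (cnt (fun v : H × E => τ (QuotientGroup.mk (ψ s * v.1), v.2) ≠ sh z (τ (QuotientGroup.mk v.1, v.2))) : ℝ) ≤
      δ * Fintype.card (H × E) := by
  unfold near at h
  have h1 := pull P (fun v => τ (actP P ψ ρ (s, 1) v) ≠ sh z (τ v))
  have h2 : cnt (fun v : H × E => τ (QuotientGroup.mk (ψ s * v.1), v.2) ≠ sh z (τ (QuotientGroup.mk v.1, v.2))) =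
      cnt (fun v : H × E => τ (actP P ψ ρ (s, 1) (QuotientGroup.mk v.1, v.2)) ≠ sh z (τ (QuotientGroup.mk v.1, v.2))) := by
    refine cnt_congr fun v => ?_
    rw [actP_apply, hρ]
    exact Iff.rfl
  rw [h2, h1, pull_card P]
  push_cast
  rw [← mul_assoc]
  exact mul_le_mul_of_nonneg_right h (Nat.cast_nonneg _)

theorem sig0 {Γ Δ H E Q : Type} [Group Δ] [Group H] [Fintype H] [Fintype E] [Group Q] [Fintype Q] {ε0 : ℝ} (hε0 : 0 < ε0)
    {S : Finset Γ} {ψ : Γ → H} {K : Subgroup H} (hx : Expd ε0 S ψ K) (q : H →* Q) {x : H} (hxK : x ∈ K) (hqx : q x ≠ 1) [Fintype (Subgroup.zpowers x)]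
    [Fintype (H ⧸ Subgroup.zpowers x)] {ρ : Δ → Equiv.Perm E} (hρ : ρ 1 = 1) {δ : ℝ} (τ : (H ⧸ Subgroup.zpowers x) × E → Option Q)
    (h : ∀ s ∈ S, near δ (actP (Subgroup.zpowers x) ψ ρ (s, 1)) (q (ψ s))⁻¹ τ) :
    (cnt (fun v => τ v ≠ none) : ℝ) ≤ 2 * ε0⁻¹ * (S.card * δ) * Fintype.card ((H ⧸ Subgroup.zpowers x) × E) := by
  have hP : (0 : ℝ) < Fintype.card (Subgroup.zpowers x) := by exact_mod_cast Fintype.card_pos
  have h1 := hol hε0 hx q hxK hqx (fun v : H × E => τ (QuotientGroup.mk v.1, v.2)) (fun a e => by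
    have : (QuotientGroup.mk (a * x) : H ⧸ Subgroup.zpowers x) = QuotientGroup.mk a := by
      rw [eq_comm, QuotientGroup.eq, inv_mul_cancel_left]
      exact Subgroup.mem_zpowers x
    show τ (QuotientGroup.mk (a * x), e) = τ (QuotientGroup.mk a, e)
    rw [this])
  have h2 := pull (E := E) (Subgroup.zpowers x) (fun v => τ v ≠ none)
  rw [h2] at h1
  have h3 : ∑ s ∈ S, (cnt (fun v : H × E => τ (QuotientGroup.mk (ψ s * v.1), v.2) ≠
      sh (q (ψ s))⁻¹ (τ (QuotientGroup.mk v.1, v.2))) : ℝ) ≤ S.card * (δ * Fintype.card (H × E)) := by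
    refine (Finset.sum_le_card_nsmul S _ _ fun s hs => near_pull _ hρ (h s hs)).trans (le_of_eq ?_)
    rw [nsmul_eq_mul]
  have h4 : (0 : ℝ) ≤ 2 * ε0⁻¹ := by positivity
  have h5 := h1.trans (mul_le_mul_of_nonneg_left h3 h4)
  rw [pull_card (Subgroup.zpowers x)] at h5
  push_cast at h5
  refine le_of_mul_le_mul_right (h5.trans (le_of_eq ?_)) hP
  ring

theorem sig1 {Γ Δ Q : Type} [Group Δ] [Group Q] [Fintype Q] {ε0 : ℝ} (hε0 : 0 < ε0) (S : Finset Γ) {θ : ℝ} (hθ : 0 < θ) :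
    ∃ δ : ℝ, 0 < δ ∧ ∃ M : ℕ, ∀ (H E V : Type) [Group H] [Fintype H] [Fintype E] [Fintype V] [DecidableEq V] [Fintype (H ⧸ (⊥ : Subgroup H))]
      (K : Subgroup H) (e : (H ⧸ (⊥ : Subgroup H)) × E ≃ V) (ψ : Γ → H) (q : H →* Q) (ρ : Δ → Equiv.Perm E), ρ 1 = 1 → Expd ε0 S ψ K →
      M ≤ Nat.card K →
      (cnt (fun τ : V → Option Q => ∀ s ∈ S, near δ (e.permCongr (actP (⊥ : Subgroup H) ψ ρ (s, 1))) (q (ψ s))⁻¹ τ) : ℝ) ≤
        Real.exp (θ * Fintype.card V) := by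
  classical
  obtain ⟨δ, hδ, M, h⟩ := few hε0 S (Q := Q) hθ
  refine ⟨δ, hδ, M, ?_⟩
  intro H E V _ _ _ _ _ _ K e ψ q ρ hρ hx hM
  have h1 := h H E K ψ q hx hM
  have hc : Fintype.card (H × E) = Fintype.card V := by
    rw [pull_card (⊥ : Subgroup H), ← Fintype.card_congr e]
    simp
  rw [hc] at h1
  refine le_trans ?_ h1
  norm_cast
  refine cnt_le_of_inj (fun τ (v : H × E) => τ (e (QuotientGroup.mk v.1, v.2))) ?_ ?_
  · intro τ τ' _ _ heq
    funext v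
    obtain ⟨⟨y, w⟩, rfl⟩ := e.surjective v
    obtain ⟨a, rfl⟩ := QuotientGroup.mk_surjective y
    exact congrFun heq (a, w)
  · intro τ hτ s hs
    have h2 := near_pull (⊥ : Subgroup H) hρ ((near_transport e _ _ _).1 (hτ s hs))
    rw [hc] at h2
    exact h2

end TauE
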