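import Pool.Agent.helper39.TK.DefsP

/-! WR-12: a compatible metric on the subshift. -/

set_option autoImplicit false

namespace TauE

open SofE hiding Al tt sh XX XX_smul MOK near

variable {Q : Type} [Group Q] [Fintype Q]

open Filter Topology

section SpaceAux

variable (t r : ℕ) {Γ : Type} [Group Γ] (p : Γ →* Q)

open Classical in
/-- coding of a configuration by a sequence -/
private noncomputable def spaceCode (e : Γ → ℕ) (x : XX t r p) (n : ℕ) : Option (Al Q t r) :=
  if h : ∃ g, e g = n then some (x.val h.choose) else none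

private theorem spaceCode_eq (e : Γ → ℕ) (he : Function.Injective e) (x : XX t r p) (g : Γ) :
    spaceCode t r p e x (e g) = some (x.val g) := by
  have h : ∃ g', e g' = e g := ⟨g, rfl⟩
  rw [spaceCode, dif_pos h, he h.choose_spec]

private theorem spaceCode_ne (e : Γ → ℕ) (x : XX t r p) {n : ℕ} (h : ¬ ∃ g, e g = n) :
    spaceCode t r p e x n = none := by
  rw [spaceCode, dif_neg h]

private theorem space_metric (e : Γ → ℕ) (he : Function.Injective e) :
    ∃ m : MetricSpace (XX t r p), ∀ (x y : XX t r p) (n : ℕ),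
      m.dist x y ≤ (1 / 2 : ℝ) ^ n ↔ ∀ g, e g < n → x.val g = y.val g := by
  letI tOp : TopologicalSpace (Option (Al Q t r)) := ⊥
  haveI dOp : DiscreteTopology (Option (Al Q t r)) := ⟨rfl⟩
  have hinj : Function.Injective (spaceCode t r p e) := by
    intro x y hxy
    apply XX.ext
    funext g
    have h := congrFun hxy (e g)
    rw [spaceCode_eq t r p e he, spaceCode_eq t r p e he] at h
    exact Option.some.inj h
  refine ⟨@MetricSpace.induced (XX t r p) (ℕ → Option (Al Q t r)) (spaceCode t r p e) hinj
    (@PiNat.metricSpace (fun _ => Option (Al Q t r)) (fun _ => tOp) (fun _ => dOp)), ?_⟩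
  intro x y n
  have key := @PiNat.mem_cylinder_iff_dist_le (fun _ => Option (Al Q t r)) (spaceCode t r p e y)
    (spaceCode t r p e x) n
  refine key.symm.trans ?_
  rw [PiNat.mem_cylinder_iff]
  constructor
  · intro h g hg
    have h1 := h (e g) hg
    rw [spaceCode_eq t r p e he, spaceCode_eq t r p e he] at h1
    exact Option.some.inj h1
  · intro h i hi
    by_cases hi' : ∃ g, e g = i
    · obtain ⟨g, rfl⟩ := hi'
      rw [spaceCode_eq t r p e he, spaceCode_eq t r p e he, h g hi]
    · rw [spaceCode_ne t r p e x hi', spaceCode_ne t r p e y hi']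

end SpaceAux

/-- Let `e : Γ → ℕ` be injective (`Γ` countable), `dist x y = 0` if `x = y`, else `(1/2)^n`, `n` the smallest number with `n = e g`, `x g ≠ y g`
(or use `PiNat`/`PiCountable` distances on `ℕ → (Al Q t r)`, pulled back by `MetricSpace.induced`). Ultrametric. `near`: for `(1/2)^N < ε` take `W = {g | e g ≤ N}`;
`sep`: `dist ≥ (1/2)^(e g)`; continuity of `s •`: from `near` and `sep` (finitely many coordinates of `s • x` are finitely many coordinates of `x`). Compactness:
the topology is that of pointwise convergence (from `near`, `sep`) and the set of configurations is closed in the compact space `Γ → (Al Q t r)`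
(`(Al Q t r)` finite, discrete), because every condition depends on two coordinates. -/
theorem exists_MOK (t r : ℕ) {Γ : Type} [Group Γ] [Countable Γ] (p : Γ →* Q) : ∃ m : MetricSpace (XX t r p), @MOK Γ _ Q _ t r p m := by
  obtain ⟨e, he⟩ := exists_injective_nat Γ
  obtain ⟨m, hm⟩ := space_metric t r p e he
  refine ⟨m, ?_⟩
  letI := m
  have hm' : ∀ (x y : XX t r p) (n : ℕ), dist x y ≤ (1 / 2 : ℝ) ^ n ↔
      ∀ g, e g < n → x.val g = y.val g := hm
  have near : ∀ ε : ℝ, 0 < ε → ∃ W : Finset Γ, ∀ x y : XX t r p, (∀ g ∈ W, x.val g = y.val g) →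
      dist x y < ε := by
    intro ε hε
    obtain ⟨n, hn⟩ := exists_pow_lt_of_lt_one hε (by norm_num : (1 / 2 : ℝ) < 1)
    have hfin : (e ⁻¹' (Set.Iio n)).Finite := (Set.finite_Iio n).preimage he.injOn
    refine ⟨hfin.toFinset, fun x y h => lt_of_le_of_lt ((hm' x y n).2 fun g hg => ?_) hn⟩
    exact h g (hfin.mem_toFinset.2 hg)
  have sep : ∀ g : Γ, ∃ ε : ℝ, 0 < ε ∧ ∀ x y : XX t r p, x.val g ≠ y.val g → ε ≤ dist x y := by
    intro g
    refine ⟨(1 / 2 : ℝ) ^ (e g + 1), by positivity, fun x y h => ?_⟩
    by_contra hc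
    exact h ((hm' x y (e g + 1)).1 (not_le.1 hc).le g (Nat.lt_succ_self _))
  have le1 : ∀ x y : XX t r p, dist x y ≤ 1 := by
    intro x y
    have := (hm' x y 0).2 (fun g hg => absurd hg (Nat.not_lt_zero _))
    simpa using this
  have cont : ∀ s : Γ, Continuous (fun x : XX t r p => s • x) := by
    intro s
    rw [continuous_iff_continuousAt]
    intro x
    rw [ContinuousAt, Metric.tendsto_nhds]
    intro ε hε
    obtain ⟨W, hW⟩ := near ε hε
    have h1 : ∀ᶠ y in 𝓝 x, ∀ g ∈ W, y.val (s⁻¹ * g) = x.val (s⁻¹ * g) := by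
      rw [Filter.eventually_all_finset]
      intro g _
      obtain ⟨η, hη, hs⟩ := sep (s⁻¹ * g)
      filter_upwards [Metric.ball_mem_nhds x hη] with y hy
      by_contra hne
      exact absurd (hs y x hne) (not_le.2 (Metric.mem_ball.1 hy))
    filter_upwards [h1] with y hy
    exact hW _ _ fun g hg => by rw [XX_smul, XX_smul, hy g hg]
  have comp : CompactSpace (XX t r p) := by
    letI tAl : TopologicalSpace (Al Q t r) := ⊥
    haveI dAl : DiscreteTopology (Al Q t r) := ⟨rfl⟩
    set K : Set (Γ → (Al Q t r)) := {x | ∀ g n : Γ, tt (x (g * n)) = sh (p n) (tt (x g))} with hK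
    have hKc : IsClosed K := by
      have : K = ⋂ (g : Γ) (n : Γ),
          {x : Γ → (Al Q t r) | tt (x (g * n)) = sh (p n) (tt (x g))} := by
        ext x
        simp [hK]
      rw [this]
      refine isClosed_iInter fun g => isClosed_iInter fun n => ?_
      have hc : Continuous fun x : Γ → (Al Q t r) => (x (g * n), x g) :=
        (continuous_apply _).prodMk (continuous_apply _)
      exact (isClosed_discrete {q : (Al Q t r) × (Al Q t r) | tt q.1 = sh (p n) (tt q.2)}).preimage hc
    haveI : CompactSpace (Γ → (Al Q t r)) := Pi.compactSpace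
    haveI : CompactSpace K := isCompact_iff_compactSpace.1 hKc.isCompact
    let φ : K → XX t r p := fun x => ⟨x.1, x.2⟩
    have hφ : Continuous φ := by
      rw [continuous_iff_continuousAt]
      intro x
      rw [ContinuousAt, Metric.tendsto_nhds]
      intro ε hε
      obtain ⟨W, hW⟩ := near ε hε
      have h1 : ∀ᶠ y in 𝓝 x, ∀ g ∈ W, y.1 g = x.1 g := by
        rw [Filter.eventually_all_finset]
        intro g _
        have hc : Continuous fun y : K => y.1 g := (continuous_apply g).comp continuous_subtype_val
        exact hc.continuousAt.eventually (IsOpen.mem_nhds (isOpen_discrete {x.1 g}) rfl)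
      filter_upwards [h1] with y hy
      exact hW _ _ hy
    have hsur : Function.Surjective φ := fun x => ⟨⟨x.val, x.prop⟩, rfl⟩
    exact hsur.compactSpace hφ
  exact ⟨comp, cont, near, sep, le1⟩

end TauE
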